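import Pool.Agent.LibTwo26.HNN

/-!
# The group of the second type: an amalgamated product with an infinite cyclic group
-/

namespace Two26

open Monoid

section amalg

variable {H : Type} [Group H]

/-- the two factors -/
def Fam (H : Type) : Bool → Type
  | true => Multiplicative ℤ
  | false => H

instance instFam (b : Bool) : Group (Fam H b) :=
  match b with
  | true => inferInstanceAs (Group (Multiplicative ℤ))
  | false => inferInstanceAs (Group H)

/-- the two embeddings of the amalgamated subgroup: squares, and the powers of `κ` -/
def emb (κ : H) : ∀ b, Multiplicative ℤ →* Fam H b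
  | true => powMonoidHom 2
  | false => zpowersHom H κ

theorem emb_injective [IsMulTorsionFree H] {κ : H} (h : κ ≠ 1) (b : Bool) :
    Function.Injective (emb κ b) := by
  cases b with
  | true =>
    intro m n hmn
    have h1 : m ^ 2 = n ^ 2 := hmn
    apply Multiplicative.toAdd.injective
    have h2 := congrArg Multiplicative.toAdd h1
    rw [toAdd_pow, toAdd_pow] at h2
    simpa using h2
  | false =>
    rw [injective_iff_map_eq_one]
    intro m hm
    have hm' : κ ^ m.toAdd = 1 := hm
    rw [IsMulTorsionFree.zpow_eq_one_iff] at hm'
    rcases hm' with hm' | hm'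
    · exact absurd hm' h
    · exact Multiplicative.toAdd.injective hm'

/-- the syllable `x` -/
def xs (H : Type) : Σ b, Fam H b := ⟨true, (Multiplicative.ofAdd (1 : ℤ) : Multiplicative ℤ)⟩

/-- a syllable of `H` -/
def hs (a : H) : Σ b, Fam H b := ⟨false, (a : H)⟩

/-- what a crossing adds in front of `x` -/
def preH (g : Bool → H) (d : Bool) : H := bif d then 1 else (g true)⁻¹

/-- what a crossing adds after `x` -/
def postH (g : Bool → H) (d : Bool) : H := bif d then (g false)⁻¹ else 1

/-- the syllables -/
def syl (g : Bool → H) (tail : List (Σ b, Fam H b)) : Bool → List (H × Bool) → List (Σ b, Fam H b)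
  | _, [] => xs H :: tail
  | d, (b, d') :: L => xs H :: hs (postH g d * b * preH g d') :: syl g tail d' L

theorem posP_not_even (g : Bool → H) (d : Bool) (j : ℕ) :
    PosP g (fun d => !d) (2 * j) d ((g d * g (!d)) ^ j) d := by
  induction j with
  | zero => rw [pow_zero]; exact PosP.zero _
  | succ j ih =>
    rw [pow_succ, ← mul_assoc]
    have h1 := PosP.succ (PosP.succ ih)
    rw [Bool.not_not] at h1
    exact h1

theorem pow_succ_swap (a b : H) (j : ℕ) : (a * b) ^ (j + 1) = a * (b * a) ^ j * b := by
  induction j with
  | zero => simp
  | succ j ih =>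
    rw [pow_succ, ih, pow_succ]
    simp only [mul_assoc]

theorem pinch_not (g : Bool → H) (d d' : Bool) (b : H) (m : ℤ)
    (h : postH g d * b * preH g d' = (g true * g false) ^ m) :
    Pinch g (fun d => !d) d b d' := by
  have hev := posP_not_even g true
  have hev' := posP_not_even g false
  simp only [Bool.not_true, Bool.not_false] at hev hev'
  unfold Pinch
  cases m with
  | ofNat j =>
    rw [Int.ofNat_eq_natCast, zpow_natCast] at h
    cases d with
    | true =>
      cases d' with
      | true =>
        have h1 : b = g false * (g true * g false) ^ j := by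
          rw [← h]; simp [postH, preH]
        rw [h1]
        exact ⟨2 * j + 1, Or.inl (PosP.cons (s := fun d => !d) (hev j))⟩
      | false =>
        have h1 : b = g false * (g true * g false) ^ j * g true := by
          rw [← h]; simp only [postH, preH, cond_true, cond_false]; group
        rw [h1]
        exact ⟨2 * j + 1 + 1, Or.inl (PosP.succ (PosP.cons (s := fun d => !d) (hev j)))⟩
    | false =>
      cases d' with
      | true =>
        have h1 : b = (g true * g false) ^ j := by
          rw [← h]; simp [postH, preH]
        rw [h1]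
        exact ⟨2 * j, Or.inl (hev j)⟩
      | false =>
        have h1 : b = (g true * g false) ^ j * g true := by
          rw [← h]; simp [postH, preH]
        rw [h1]
        exact ⟨2 * j + 1, Or.inl (PosP.succ (hev j))⟩
  | negSucc j =>
    rw [zpow_negSucc] at h
    cases d with
    | true =>
      cases d' with
      | true =>
        have h1 : b⁻¹ = (g true * g false) ^ j * g true := by
          have h2 : b = g false * ((g true * g false) ^ (j + 1))⁻¹ := by
            rw [← h]; simp [postH, preH]
          rw [h2, pow_succ]; group
        rw [h1]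
        exact ⟨2 * j + 1, Or.inr (PosP.succ (hev j))⟩
      | false =>
        have h1 : b⁻¹ = (g false * g true) ^ j := by
          have h2 : b = g false * ((g true * g false) ^ (j + 1))⁻¹ * g true := by
            rw [← h]; simp only [postH, preH, cond_true, cond_false]; group
          rw [h2, pow_succ_swap]; group
        rw [h1]
        exact ⟨2 * j, Or.inr (hev' j)⟩
    | false =>
      cases d' with
      | true =>
        have h1 : b⁻¹ = (g true * g false) ^ (j + 1) := by
          have h2 : b = ((g true * g false) ^ (j + 1))⁻¹ := by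
            rw [← h]; simp [postH, preH]
          rw [h2, inv_inv]
        rw [h1]
        exact ⟨2 * (j + 1), Or.inr (hev (j + 1))⟩
      | false =>
        have h1 : b⁻¹ = g false * (g true * g false) ^ j := by
          have h2 : b = ((g true * g false) ^ (j + 1))⁻¹ * g true := by
            rw [← h]; simp [postH, preH]
          rw [h2, mul_inv_rev, inv_inv, pow_succ', mul_assoc, inv_mul_cancel_left]
        rw [h1]
        exact ⟨2 * j + 1, Or.inr (PosP.cons (s := fun d => !d) (hev j))⟩

/-- product of syllables -/
noncomputable def P (κ : H) (l : List (Σ b, Fam H b)) : PushoutI (emb κ) :=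
  (l.map fun e => PushoutI.of e.1 e.2).prod

theorem syl_tail (g : Bool → H) (tail : List (Σ b, Fam H b)) (d : Bool) (L : List (H × Bool)) :
    syl g tail d L = syl g [] d L ++ tail := by
  induction L generalizing d with
  | nil => rfl
  | cons e L ih =>
    obtain ⟨b, d'⟩ := e
    simp only [syl, List.cons_append]
    rw [ih]

theorem syl_head (g : Bool → H) (tail : List (Σ b, Fam H b)) (d : Bool) (L : List (H × Bool)) :
    ∃ l, syl g tail d L = xs H :: l := by
  cases L with
  | nil => exact ⟨_, rfl⟩
  | cons e L => exact ⟨_, rfl⟩

theorem syl_chain (g : Bool → H) (tail : List (Σ b, Fam H b))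
    (ht : tail = [] ∨ ∃ e, tail = [hs e]) (d : Bool) (L : List (H × Bool)) :
    (syl g tail d L).IsChain fun l l' => l.1 ≠ l'.1 := by
  induction L generalizing d with
  | nil =>
    rcases ht with rfl | ⟨e, rfl⟩
    · exact List.isChain_singleton _
    · exact List.isChain_cons_cons.2 ⟨by simp [xs, hs], List.isChain_singleton _⟩
  | cons e L ih =>
    obtain ⟨b, d'⟩ := e
    obtain ⟨l, hl⟩ := syl_head g tail d' L
    have h1 := ih d'
    simp only [syl]
    rw [hl] at h1 ⊢
    exact List.isChain_cons_cons.2 ⟨by simp [xs, hs],
      List.isChain_cons_cons.2 ⟨by simp [xs, hs], h1⟩⟩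

end amalg

/-- the embedding of `H` -/
noncomputable def iot {H : Type} [Group H] (κ : H) : H →* PushoutI (emb κ) :=
  PushoutI.of (φ := emb κ) false

/-- The group of the second type. -/
theorem britII {H : Type} [Group H] [IsMulTorsionFree H] (g : Bool → H)
    (hg : g true * g false ≠ 1) :
    ∃ (G : Type) (_ : Group G) (ι : H →* G) (T : G), Function.Injective ι ∧
      (∀ d, lamT T d * ι (g (!d)) * lamT T d = ι (g d)) ∧
      ∀ (L : List (H × Bool)) (c : H), L ≠ [] → cval ι (lamT T) L c = 1 →
        Has (Pinch g (fun d => !d)) L := by
  obtain ⟨κ, hκ⟩ : ∃ κ, κ = g true * g false := ⟨_, rfl⟩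
  rw [← hκ] at hg
  have hinj := emb_injective hg
  obtain ⟨ι, hι⟩ : ∃ ι, ι = iot κ := ⟨_, rfl⟩
  have hικ : ι κ = ι (g true) * ι (g false) := by
    rw [← map_mul]
    exact congrArg ι hκ
  set x : PushoutI (emb κ) :=
    PushoutI.of (φ := emb κ) true (Multiplicative.ofAdd (1 : ℤ) : Multiplicative ℤ) with hx
  have hxx : x * x = ι κ := by
    have h1 := PushoutI.of_apply_eq_base (emb κ) true (Multiplicative.ofAdd (1 : ℤ))
    have h2 := PushoutI.of_apply_eq_base (emb κ) false (Multiplicative.ofAdd (1 : ℤ))
    have h3 : (emb κ false) (Multiplicative.ofAdd (1 : ℤ)) = κ := zpow_one κ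
    rw [h3] at h2
    have h4 : ι κ = PushoutI.of (φ := emb κ) true
        ((emb κ true) (Multiplicative.ofAdd (1 : ℤ))) := by
      rw [hι]
      exact h2.trans h1.symm
    have h5 : x * x = PushoutI.of (φ := emb κ) true
        (((Multiplicative.ofAdd (1 : ℤ) : Multiplicative ℤ) : Fam H true) *
          ((Multiplicative.ofAdd (1 : ℤ) : Multiplicative ℤ) : Fam H true)) :=
      (map_mul (PushoutI.of (φ := emb κ) true) _ _).symm
    rw [h4, h5]
    rfl
  set T := x * (ι (g false))⁻¹ with hT
  have hrel1 : T * ι (g false) * T = ι (g true) := by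
    rw [hT, inv_mul_cancel_right, ← mul_assoc, hxx, hικ, mul_inv_cancel_right]
  have hlam : ∀ d, lamT T d = ι (preH g d) * x * ι (postH g d) := by
    intro d
    cases d with
    | true => simp [lamT, preH, postH, hT]
    | false =>
      have h1 : T⁻¹ = ι (g false) * x⁻¹ := by rw [hT, mul_inv_rev, inv_inv]
      have h2 : x⁻¹ = (ι κ)⁻¹ * x := by rw [← hxx]; group
      rw [hικ] at h2
      simp only [lamT, preH, postH, cond_false, map_one, mul_one, h1, h2, map_inv]
      group
  refine ⟨PushoutI (emb κ), inferInstance, ι, T, ?_, ?_, ?_⟩
  · rw [hι]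
    exact PushoutI.of_injective hinj false
  · intro d
    cases d with
    | true => exact hrel1
    | false =>
      simp only [lamT, Bool.not_false, cond_false]
      rw [← hrel1]
      group
  · intro L c hL hv
    by_contra hno
    -- the syllables are not in the amalgamated subgroup
    have hred : ∀ (tail : List (Σ b, Fam H b))
        (_ : ∀ e ∈ tail, e.2 ∉ (emb κ e.1).range) (L : List (H × Bool)) (a : H) (d : Bool)
        (_ : ¬ Has (Pinch g (fun d => !d)) ((a, d) :: L)),
        ∀ e ∈ syl g tail d L, e.2 ∉ (emb κ e.1).range := by
      have hxs : (xs H).2 ∉ (emb κ (xs H).1).range := by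
        rintro ⟨m, hm⟩
        have h1 : m ^ 2 = Multiplicative.ofAdd (1 : ℤ) := hm
        have h2 := congrArg Multiplicative.toAdd h1
        rw [toAdd_pow, toAdd_ofAdd, nsmul_eq_mul] at h2
        have h3 : (2 : ℤ) ∣ 1 := ⟨m.toAdd, by rw [← h2]; rfl⟩
        omega
      intro tail ht L
      induction L with
      | nil =>
        intro a d _ e he
        rcases List.mem_cons.1 he with rfl | he
        · exact hxs
        · exact ht e he
      | cons e' L ih =>
        intro a d hn e he
        obtain ⟨b, d'⟩ := e'
        rcases List.mem_cons.1 he with rfl | he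
        · exact hxs
        · rcases List.mem_cons.1 he with rfl | he
          · rintro ⟨m, hm⟩
            apply hn
            refine ⟨[], a, d, b, d', L, rfl, pinch_not g d d' b m.toAdd ?_⟩
            rw [← hκ]
            exact hm.symm
          · exact ih b d' (fun h => hn (h.cons _)) e he
    -- the value
    have hval : ∀ (L : List (H × Bool)) (d : Bool), ∃ e : H,
        lamT T d * cval ι (lamT T) L c = ι (preH g d) * P κ (syl g [] d L) * ι e := by
      intro L
      induction L with
      | nil =>
        intro d
        refine ⟨postH g d * c, ?_⟩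
        rw [cval_nil, hlam, map_mul]
        have h1 : P κ (syl g [] d []) = x := by simp [P, syl, xs, hx]
        rw [h1]
        simp only [mul_assoc]
      | cons e' L ih =>
        intro d
        obtain ⟨b, d'⟩ := e'
        obtain ⟨e, he⟩ := ih d'
        refine ⟨e, ?_⟩
        have h1 : P κ (syl g [] d ((b, d') :: L)) =
            x * ι (postH g d * b * preH g d') * P κ (syl g [] d' L) := by
          rw [hι, hx]
          simp only [P, syl, List.map_cons, List.prod_cons, mul_assoc]
          rfl
        rw [cval_cons, h1, mul_assoc (ι b), he, hlam]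
        simp only [map_mul, mul_assoc]
    obtain ⟨⟨a, d⟩, L', rfl⟩ := List.exists_cons_of_ne_nil hL
    obtain ⟨e, he⟩ := hval L' d
    rw [cval_cons, mul_assoc, he] at hv
    set q : H := (a * preH g d)⁻¹ * e⁻¹ with hq
    have hPq : P κ (syl g [] d L') = ι q := by
      rw [hq, map_mul, map_inv, map_inv, map_mul]
      have h1 : ι a * (ι (preH g d) * P κ (syl g [] d L') * ι e) =
        (ι a * ι (preH g d)) * P κ (syl g [] d L') * ι e := by simp only [mul_assoc]
      rw [h1] at hv
      rw [eq_inv_mul_iff_mul_eq, ← mul_eq_one_iff_eq_inv]
      exact hv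
    have final : ∀ (tail : List (Σ b, Fam H b)) (_ : tail = [] ∨ ∃ e, tail = [hs e])
        (_ : ∀ e ∈ tail, e.2 ∉ (emb κ e.1).range),
        P κ (syl g tail d L') ∈ (PushoutI.base (emb κ)).range → False := by
      intro tail ht1 ht2 hP
      have hr := hred tail ht2 L' a d hno
      have hW := PushoutI.Reduced.eq_empty_of_mem_range (φ := emb κ) hinj
        (w := ⟨syl g tail d L', fun l hl h1 => hr l hl (h1 ▸ one_mem _),
          syl_chain g tail ht1 d L'⟩) hr (by
          have h2 : PushoutI.ofCoprodI (φ := emb κ) (CoprodI.Word.prod
              ⟨syl g tail d L', fun l hl h1 => hr l hl (h1 ▸ one_mem _),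
                syl_chain g tail ht1 d L'⟩) = P κ (syl g tail d L') := by
            unfold CoprodI.Word.prod P
            rw [map_list_prod, List.map_map]
            congr 1
          rw [h2]
          exact hP)
      have h3 := congrArg CoprodI.Word.toList hW
      obtain ⟨l, hl⟩ := syl_head g tail d L'
      have h4 : syl g tail d L' = [] := h3
      rw [hl] at h4
      exact List.cons_ne_nil _ _ h4
    by_cases hqr : ∃ m, emb κ false m = q
    · obtain ⟨m, hm⟩ := hqr
      refine final [] (Or.inl rfl) (by simp) ⟨m, ?_⟩
      rw [hPq, ← hm, hι]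
      exact (PushoutI.of_apply_eq_base (emb κ) false m).symm
    · refine final [hs q⁻¹] (Or.inr ⟨_, rfl⟩) ?_ ?_
      · intro e he
        rw [List.mem_singleton] at he
        subst he
        rintro ⟨m, hm⟩
        apply hqr
        refine ⟨m⁻¹, ?_⟩
        have hm' : emb κ false m = q⁻¹ := hm
        rw [map_inv, hm']
        exact inv_inv q
      · rw [syl_tail]
        have h1 : P κ (syl g [] d L' ++ [hs q⁻¹]) = P κ (syl g [] d L') * ι q⁻¹ := by
          rw [hι]
          simp only [P, List.map_append, List.prod_append, List.map_cons, List.prod_cons,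
            List.map_nil, List.prod_nil, mul_one]
          rfl
        rw [h1, hPq, ← map_mul, mul_inv_cancel, map_one]
        exact one_mem _

end Two26
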