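import Pool.Agent.LibTwo26.Setup

/-!
# Walks with crossings
-/

namespace Two26

open MM31

/-- rerouting, in the other direction -/
theorem StripData.reroute' {H : Type} [Group H] {R : ℕ → H → ℕ → Prop} {g : Bool → H}
    {s : Bool → Bool} {α β : Bool → ℕ} (S : StripData R g s α β) (hβα : ∀ d, R (β d) 1 (α d))
    {j : ℕ} {d d' : Bool} {b b' : H} (π π' : Bool)
    (h : (PosP g s j d b d' ∧ PosP g s j (!d) b' (!d')) ∨
      (PosP g s j d' b⁻¹ d ∧ PosP g s j (!d') b'⁻¹ (!d)))
    (hR : R (bif π then α d else β d) b (bif π' then α d' else β d')) :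
    R (bif π then α (!d) else β (!d)) b' (bif π' then α (!d') else β (!d')) := by
  have h1 := S.rev.reroute hβα (j := j) (d := d) (d' := d') (b := b) (b' := b') (!π) (!π') ?_ ?_
  · revert h1
    cases π <;> cases π' <;> exact fun h => h
  · rcases h with ⟨h2, h3⟩ | ⟨h2, h3⟩
    · right
      exact ⟨h2.rev S.ss, h3.rev S.ss⟩
    · left
      have h4 := h2.rev S.ss
      have h5 := h3.rev S.ss
      rw [inv_inv] at h4 h5
      exact ⟨h4, h5⟩
  · revert hR
    cases π <;> cases π' <;> exact fun h => h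

section walks

variable {X : Type}

/-- walks with crossings -/
inductive CW (w : List (Lt X)) (z : X) (P : Bool → Bool → ℕ) :
    ℕ → List (FreeGroup X × Bool × Bool) → FreeGroup X → ℕ → Prop
  | nil {p q : ℕ} {a : FreeGroup X} : AW w z p a q → CW w z P p [] a q
  | cons {p q : ℕ} {a c : FreeGroup X} {d π : Bool} {L : List (FreeGroup X × Bool × Bool)} :
      AW w z p a (P π d) → CW w z P (P π (!d)) L c q → CW w z P p ((a, d, π) :: L) c q

variable {w : List (Lt X)} {z : X} {P : Bool → Bool → ℕ}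

theorem CW.pre {p p' q : ℕ} {a c : FreeGroup X} {L : List (FreeGroup X × Bool × Bool)}
    (h1 : AW w z p a p') (h2 : CW w z P p' L c q) {G : Type} [Group G] (ι : FreeGroup X →* G)
    (lam : Bool → G) :
    ∃ L' c', L'.length = L.length ∧ CW w z P p L' c' q ∧
      cval ι lam (L'.map fun e => (e.1, e.2.1)) c' =
        ι a * cval ι lam (L.map fun e => (e.1, e.2.1)) c := by
  cases h2 with
  | nil h3 =>
    refine ⟨[], a * c, rfl, CW.nil (h1.comp h3), ?_⟩
    simp [cval_nil]
  | @cons _ _ b _ d π L h3 h4 =>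
    refine ⟨(a * b, d, π) :: L, c, rfl, CW.cons (h1.comp h3) h4, ?_⟩
    simp only [List.map_cons, cval_cons, map_mul, mul_assoc]

theorem CW.comp {p q r : ℕ} {c c' : FreeGroup X} {L L' : List (FreeGroup X × Bool × Bool)}
    (h1 : CW w z P p L c q) (h2 : CW w z P q L' c' r) {G : Type} [Group G] (ι : FreeGroup X →* G)
    (lam : Bool → G) :
    ∃ L'' c'', L''.length = L.length + L'.length ∧ CW w z P p L'' c'' r ∧
      cval ι lam (L''.map fun e => (e.1, e.2.1)) c'' =
        cval ι lam (L.map fun e => (e.1, e.2.1)) c *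
          cval ι lam (L'.map fun e => (e.1, e.2.1)) c' := by
  induction h1 with
  | nil h3 =>
    obtain ⟨L₁, c₁, h4, h5, h6⟩ := CW.pre h3 h2 ι lam
    refine ⟨L₁, c₁, by rw [h4]; simp, h5, ?_⟩
    rw [h6]
    simp [cval_nil]
  | @cons p q a c d π L h3 h4 ih =>
    obtain ⟨L₁, c₁, h5, h6, h7⟩ := ih h2
    refine ⟨(a, d, π) :: L₁, c₁, ?_, CW.cons h3 h6, ?_⟩
    · simp only [List.length_cons]
      omega
    · simp only [List.map_cons, cval_cons, h7, mul_assoc]

theorem CW.split {p q : ℕ} {a c : FreeGroup X} {d π : Bool}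
    {L₁ L₂ : List (FreeGroup X × Bool × Bool)}
    (h : CW w z P p (L₁ ++ (a, d, π) :: L₂) c q) :
    CW w z P p L₁ a (P π d) ∧ CW w z P (P π (!d)) L₂ c q := by
  induction L₁ generalizing p with
  | nil =>
    cases h with
    | cons h1 h2 => exact ⟨CW.nil h1, h2⟩
  | cons e L₁ ih =>
    obtain ⟨b, d', π'⟩ := e
    cases h with
    | cons h1 h2 =>
      obtain ⟨h3, h4⟩ := ih h2
      exact ⟨CW.cons h1 h3, h4⟩

/-- Two consecutive crossings which can be avoided. -/
def Rdc (w : List (Lt X)) (z : X) (P : Bool → Bool → ℕ) {G : Type} [Group G]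
    (ι : FreeGroup X →* G) (lam : Bool → G) (L : List (FreeGroup X × Bool × Bool)) : Prop :=
  ∃ (L₁ : List (FreeGroup X × Bool × Bool)) (a : FreeGroup X) (d₁ π : Bool) (b : FreeGroup X)
    (d₂ π' : Bool) (L₂ : List (FreeGroup X × Bool × Bool)) (b' : FreeGroup X),
    L = L₁ ++ (a, d₁, π) :: (b, d₂, π') :: L₂ ∧ AW w z (P π d₁) b' (P π' (!d₂)) ∧
      ι b' = lam d₁ * ι b * lam d₂

theorem Rdc.cons {G : Type} [Group G] {ι : FreeGroup X →* G} {lam : Bool → G}
    {L : List (FreeGroup X × Bool × Bool)} (e : FreeGroup X × Bool × Bool)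
    (h : Rdc w z P ι lam L) : Rdc w z P ι lam (e :: L) := by
  obtain ⟨L₁, a, d₁, π, b, d₂, π', L₂, b', rfl, h1, h2⟩ := h
  exact ⟨e :: L₁, a, d₁, π, b, d₂, π', L₂, b', rfl, h1, h2⟩

theorem cval_append {G : Type} [Group G] (ι : FreeGroup X →* G) (lam : Bool → G)
    (L₁ L₂ : List (FreeGroup X × Bool)) (a : FreeGroup X) (d : Bool) (c : FreeGroup X) :
    cval ι lam (L₁ ++ (a, d) :: L₂) c = cval ι lam L₁ a * lam d * cval ι lam L₂ c := by
  simp [cval, mul_assoc]

/-- If in every closed walk with crossings two consecutive crossings can be avoided, then every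
walk with value `1` is a jump. -/
theorem dom_of_rdc {G : Type} [Group G] (ι : FreeGroup X →* G) (hι : Function.Injective ι)
    (lam : Bool → G)
    (h : ∀ L c q, CW w z P 0 L c q → L ≠ [] → cval ι lam (L.map fun e => (e.1, e.2.1)) c = 1 →
      Rdc w z P ι lam L) :
    ∀ L c q, CW w z P 0 L c q → cval ι lam (L.map fun e => (e.1, e.2.1)) c = 1 → Dom w 0 q := by
  have key : ∀ (N : ℕ) (L : List (FreeGroup X × Bool × Bool)) (c : FreeGroup X) (q : ℕ),
      L.length = N → CW w z P 0 L c q →
      cval ι lam (L.map fun e => (e.1, e.2.1)) c = 1 → Dom w 0 q := by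
    intro N
    induction N using Nat.strong_induction_on with
    | _ N ih =>
      intro L c q hN hL hv
      by_cases h0 : L = []
      · subst h0
        rw [List.map_nil, cval_nil, ← map_one ι] at hv
        have h1 := hι hv
        subst h1
        cases hL with
        | nil h2 => exact h2.dom
      · obtain ⟨L₁, a, d₁, π, b, d₂, π', L₂, b', rfl, h1, h2⟩ := h L c q hL h0 hv
        obtain ⟨h3, h4⟩ := hL.split
        cases h4 with
        | cons h5 h6 =>
          obtain ⟨M, c₁, h7, h8, h9⟩ := CW.comp h3 (CW.nil h1) ι lam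
          obtain ⟨M', c₂, h10, h11, h12⟩ := CW.comp h8 h6 ι lam
          refine ih M'.length ?_ M' c₂ q rfl h11 ?_
          · rw [h10, h7, ← hN]
            simp
          · rw [h12, h9, ← hv]
            simp only [List.map_append, List.map_cons, List.map_nil, cval_append, cval_cons,
              cval_nil, h2, mul_assoc]
  exact fun L c q h1 h2 => key L.length L c q rfl h1 h2

end walks

end Two26
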