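import Pool.Agent.LibTwo26.NoPinch

/-!
# Words in which a letter occurs at most twice
-/

namespace Two26

open MM31

variable {X : Type}

section

variable {w : List (Lt X)} {z : X} {k₁ k₂ : ℕ} {ζ : Lt X} {tt : Bool}

theorem Has.lift {Q : Bool → FreeGroup X → Bool → Prop}
    {L : List (FreeGroup X × Bool × Bool)} (h : Has Q (L.map fun e => (e.1, e.2.1))) :
    ∃ (L₁ : List (FreeGroup X × Bool × Bool)) (a : FreeGroup X) (d₁ π : Bool) (b : FreeGroup X)
      (d₂ π' : Bool) (L₂ : List (FreeGroup X × Bool × Bool)),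
      L = L₁ ++ (a, d₁, π) :: (b, d₂, π') :: L₂ ∧ Q d₁ b d₂ := by
  obtain ⟨L₁, a, d₁, b, d₂, L₂, h1, h2⟩ := h
  rw [List.map_eq_append_iff] at h1
  obtain ⟨M₁, M₂, rfl, rfl, h3⟩ := h1
  rw [List.map_eq_cons_iff] at h3
  obtain ⟨⟨a', d₁', π⟩, M₃, rfl, h4, h5⟩ := h3
  rw [List.map_eq_cons_iff] at h5
  obtain ⟨⟨b', d₂', π'⟩, M₄, rfl, h6, h7⟩ := h5
  obtain ⟨rfl, rfl⟩ : a' = a ∧ d₁' = d₁ := by simpa using h4
  obtain ⟨rfl, rfl⟩ : b' = b ∧ d₂' = d₂ := by simpa using h6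
  exact ⟨M₁, a', d₁', π, b', d₂', π', M₄, rfl, h2⟩

/-- the crossings can be avoided -/
theorem Setup.rdc (S : Setup w z k₁ k₂ ζ tt) {G : Type} [Group G]
    (ι : FreeGroup X →* G) (T : G)
    (hrel : ∀ d, lamT T d * ι (gg w k₁ k₂ (!d)) * lamT T (sB tt (!d)) = ι (gg w k₁ k₂ d))
    (hpinch : ∀ (L : List (FreeGroup X × Bool)) (c : FreeGroup X), L ≠ [] →
      cval ι (lamT T) L c = 1 → Has (Pinch (gg w k₁ k₂) (sB tt)) L)
    (L : List (FreeGroup X × Bool × Bool)) (c : FreeGroup X) (q : ℕ)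
    (h : CW w z (Pp w k₁ k₂ tt) 0 L c q) (hL : L ≠ [])
    (hv : cval ι (lamT T) (L.map fun e => (e.1, e.2.1)) c = 1) :
    Rdc w z (Pp w k₁ k₂ tt) ι (lamT T) L := by
  have h1 := (hpinch _ c (by simpa using hL) hv).lift
  obtain ⟨L₁, a, d₁, π, b, d₂, π', L₂, h2, h3⟩ := h1
  have h4 : AW w z (Pp w k₁ k₂ tt π (!d₁)) b (Pp w k₁ k₂ tt π' d₂) := by
    rw [h2] at h
    obtain ⟨_, h5⟩ := h.split
    cases h5 with
    | cons h6 _ => exact h6
  have hcomp : (∀ d, AW w z (al w k₂ tt d) 1 (be k₁ d)) ∨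
      (∀ d, AW w z (be k₁ d) 1 (al w k₂ tt d)) →
      Rdc w z (Pp w k₁ k₂ tt) ι (lamT T) L := by
    intro hc
    -- the other side of the strip
    have hf : ∃ (j : ℕ) (b' : FreeGroup X), ((PosP (gg w k₁ k₂) (sB tt) j (!d₁) b d₂ ∧
        PosP (gg w k₁ k₂) (sB tt) j (!!d₁) b' (!d₂)) ∨
        (PosP (gg w k₁ k₂) (sB tt) j d₂ b⁻¹ (!d₁) ∧
        PosP (gg w k₁ k₂) (sB tt) j (!d₂) b'⁻¹ (!!d₁))) ∧
        ι b' = lamT T d₁ * ι b * lamT T d₂ := by
      obtain ⟨j, h5 | h5⟩ := h3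
      · obtain ⟨b', h6, h7⟩ := h5.flip ι (lamT T) (lamT_mul_not T) (sB_not tt) hrel
        rw [Bool.not_not] at h7
        exact ⟨j, b', Or.inl ⟨h5, h6⟩, h7⟩
      · obtain ⟨x', h6, h7⟩ := h5.flip ι (lamT T) (lamT_mul_not T) (sB_not tt) hrel
        refine ⟨j, x'⁻¹, Or.inr ⟨h5, by rw [inv_inv]; exact h6⟩, ?_⟩
        have h8 : (lamT T (!d₂))⁻¹ = lamT T d₂ := by cases d₂ <;> simp [lamT]
        have h9 : (lamT T (!d₁))⁻¹ = lamT T d₁ := by cases d₁ <;> simp [lamT]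
        rw [map_inv, h7]
        simp only [mul_inv_rev, h8, h9, map_inv, inv_inv, mul_assoc]
    obtain ⟨j, b', h5, h6⟩ := hf
    have h7 : AW w z (Pp w k₁ k₂ tt π (!!d₁)) b' (Pp w k₁ k₂ tt π' (!d₂)) := by
      rcases hc with hc | hc
      · exact S.strip.reroute hc π π' h5 h4
      · exact S.strip.reroute' hc π π' h5 h4
    rw [Bool.not_not] at h7
    exact ⟨L₁, a, d₁, π, b, d₂, π', L₂, b', h2, h7, h6⟩
  rcases S.inc_or with hc | hc | hinc
  · exact hcomp (Or.inl hc)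
  · exact hcomp (Or.inr hc)
  · -- all crossings lead into `u`
    obtain ⟨⟨a₀, d₀, π₀⟩, M, rfl⟩ := List.exists_cons_of_ne_nil hL
    have hd₀ : d₀ = !(dU tt π₀) := by
      rcases Bool.eq_or_eq_not d₀ (dU tt π₀) with rfl | h5
      · cases h with
        | cons h6 _ =>
          have h7 := (S.aw_U hinc h6 (S.dU_mem π₀)).1.1
          omega
      · exact h5
    subst hd₀
    have h5 : CW w z (Pp w k₁ k₂ tt) (Pp w k₁ k₂ tt π₀ (dU tt π₀)) M c q := by
      cases h with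
      | cons _ h7 => rwa [Bool.not_not] at h7
    rcases S.vu hinc ι T hrel M a₀ π₀ c q h5 with h6 | h6
    · exfalso
      have h7 : ∀ e ∈ (a₀, !(dU tt π₀), π₀) :: M, e.2.1 = !(dU tt e.2.2) := by
        intro e he
        rcases List.mem_cons.1 he with rfl | he
        · rfl
        · exact h6 e he
      have h8 : d₁ = !(dU tt π) := h7 (a, d₁, π) (by rw [h2]; simp)
      have h9 : d₂ = !(dU tt π') := h7 (b, d₂, π') (by rw [h2]; simp)
      subst h8
      subst h9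
      rw [Bool.not_not] at h4
      exact S.noPinch hinc h4 h3
    · exact h6

/-- the map of the generators -/
noncomputable def mapT {G : Type} [Group G] (z : X) (ζ : Lt X) (ι : FreeGroup X →* G) (T : G)
    (x : X) : G :=
  open Classical in
  if x = z then (bif ζ.2 then T else T⁻¹) else ι (FreeGroup.of x)

theorem mapT_ne {G : Type} [Group G] {z : X} {ζ : Lt X} {ι : FreeGroup X →* G} {T : G}
    {x : Lt X} (hx : x.1 ≠ z) : lval (mapT z ζ ι T) x = ι (FreeGroup.mk [x]) := by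
  obtain ⟨x, b⟩ := x
  have hx' : x ≠ z := hx
  have h1 : mapT z ζ ι T x = ι (FreeGroup.of x) := by
    unfold mapT
    rw [if_neg hx']
  cases b
  · have h2 : (FreeGroup.mk [(x, false)] : FreeGroup X) = (FreeGroup.of x)⁻¹ := rfl
    rw [h2, map_inv, ← h1]
    rfl
  · exact h1

theorem mapT_lam {G : Type} [Group G] {z : X} {ζ : Lt X} {ι : FreeGroup X →* G} {T : G}
    (hζ : ζ.1 = z) (d : Bool) : lval (mapT z ζ ι T) (lamL ζ d) = lamT T d := by
  obtain ⟨x, b⟩ := ζ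
  have hx : x = z := hζ
  subst hx
  have h1 : mapT x (x, b) ι T x = bif b then T else T⁻¹ := by
    unfold mapT
    rw [if_pos rfl]
  cases d <;> cases b <;> simp [lamL, lval, linv, lamT, h1]

theorem val_free {G : Type} [Group G] {z : X} {ζ : Lt X} {ι : FreeGroup X →* G} {T : G}
    (L : List (Lt X)) (hL : ∀ x ∈ L, x.1 ≠ z) :
    val (mapT z ζ ι T) L = ι (FreeGroup.mk L) := by
  induction L with
  | nil => simp [FreeGroup.one_eq_mk.symm]
  | cons x L ih =>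
    rw [val_cons, ih (fun y hy => hL y (List.mem_cons_of_mem _ hy)),
      mapT_ne (hL x List.mem_cons_self), ← map_mul, FreeGroup.mul_mk]
    rfl

end

end Two26
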