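import Pool.Agent.LibTwo26.Strip

/-!
# The group of the first type: an HNN extension
-/

namespace Two26

/-- the value of `a₁ λ₁ a₂ λ₂ ⋯ c` -/
def cval {H G : Type} [Group H] [Group G] (ι : H →* G) (lam : Bool → G) (L : List (H × Bool))
    (c : H) : G :=
  (L.map fun e => ι e.1 * lam e.2).prod * ι c

theorem cval_nil {H G : Type} [Group H] [Group G] (ι : H →* G) (lam : Bool → G) (c : H) :
    cval ι lam [] c = ι c := by
  simp [cval]

theorem cval_cons {H G : Type} [Group H] [Group G] (ι : H →* G) (lam : Bool → G) (a : H)
    (d : Bool) (L : List (H × Bool)) (c : H) :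
    cval ι lam ((a, d) :: L) c = ι a * lam d * cval ι lam L c := by
  simp [cval, mul_assoc]

/-- the two powers of `T` -/
def lamT {G : Type} [Group G] (T : G) (d : Bool) : G := bif d then T else T⁻¹

theorem lamT_mul_not {G : Type} [Group G] (T : G) (d : Bool) : lamT T d * lamT T (!d) = 1 := by
  cases d <;> simp [lamT]

/-- somewhere in `L` there are two consecutive entries with `Q` -/
def Has {H : Type} (Q : Bool → H → Bool → Prop) (L : List (H × Bool)) : Prop :=
  ∃ (L₁ : List (H × Bool)) (a : H) (d₁ : Bool) (b : H) (d₂ : Bool) (L₂ : List (H × Bool)),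
    L = L₁ ++ (a, d₁) :: (b, d₂) :: L₂ ∧ Q d₁ b d₂

theorem Has.cons {H : Type} {Q : Bool → H → Bool → Prop} {L : List (H × Bool)} (e : H × Bool)
    (h : Has Q L) : Has Q (e :: L) := by
  obtain ⟨L₁, a, d₁, b, d₂, L₂, rfl, h⟩ := h
  exact ⟨e :: L₁, a, d₁, b, d₂, L₂, rfl, h⟩

/-- the middle element is read along the strip -/
def Pinch {H : Type} [Group H] (g : Bool → H) (s : Bool → Bool) (d₁ : Bool) (b : H)
    (d₂ : Bool) : Prop :=
  ∃ j, PosP g s j (!d₁) b d₂ ∨ PosP g s j d₂ b⁻¹ (!d₁)

theorem posP_id {H : Type} [Group H] (g : Bool → H) (j : ℕ) (d : Bool) :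
    PosP g id j d (g d ^ j) d := by
  induction j with
  | zero => rw [pow_zero]; exact PosP.zero _
  | succ j ih =>
    rw [pow_succ]
    exact PosP.succ ih

theorem pinch_id {H : Type} [Group H] (g : Bool → H) (d : Bool) (m : ℤ) :
    Pinch g id d (g (!d) ^ m) (!d) := by
  obtain ⟨j, rfl | rfl⟩ := Int.eq_nat_or_neg m
  · refine ⟨j, Or.inl ?_⟩
    rw [zpow_natCast]
    exact posP_id g j _
  · refine ⟨j, Or.inr ?_⟩
    rw [zpow_neg, inv_inv, zpow_natCast]
    exact posP_id g j _

section hnn

variable {H : Type} [Group H] (g : Bool → H)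

/-- powers -/
def pw (d : Bool) : Multiplicative ℤ →* H := zpowersHom H (g d)

theorem pw_injective [IsMulTorsionFree H] {d : Bool} (h : g d ≠ 1) :
    Function.Injective (pw g d) := by
  rw [injective_iff_map_eq_one]
  intro m hm
  unfold pw at hm
  rw [zpowersHom_apply, IsMulTorsionFree.zpow_eq_one_iff] at hm
  rcases hm with hm | hm
  · exact absurd hm h
  · exact Multiplicative.toAdd.injective hm

/-- the isomorphism between the two cyclic subgroups -/
noncomputable def isoP (h : ∀ d, Function.Injective (pw g d)) :
    (pw g false).range ≃* (pw g true).range :=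
  (MonoidHom.ofInjective (h false)).symm.trans (MonoidHom.ofInjective (h true))

/-- signs -/
def sgn (d : Bool) : ℤˣ := bif d then 1 else -1

/-- the first segment -/
def hd (c : H) : List (H × Bool) → H
  | [] => c
  | (a, _) :: _ => a

/-- the list of a reduced word -/
def toHNN (c : H) : List (H × Bool) → List (ℤˣ × H)
  | [] => []
  | (_, d) :: L => (sgn d, hd c L) :: toHNN c L

end hnn

/-- The group of the first type. -/
theorem britI {H : Type} [Group H] [IsMulTorsionFree H] (g : Bool → H) (hg : ∀ d, g d ≠ 1) :
    ∃ (G : Type) (_ : Group G) (ι : H →* G) (T : G), Function.Injective ι ∧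
      (∀ d, lamT T d * ι (g (!d)) * lamT T (!d) = ι (g d)) ∧
      ∀ (L : List (H × Bool)) (c : H), L ≠ [] → cval ι (lamT T) L c = 1 →
        Has (Pinch g id) L := by
  have hinj : ∀ d, Function.Injective (pw g d) := fun d => pw_injective g (hg d)
  set φ := isoP g hinj with hφ
  have hφ1 : ∀ m : Multiplicative ℤ, φ ⟨pw g false m, m, rfl⟩ = ⟨pw g true m, m, rfl⟩ := by
    intro m
    have h1 : (⟨pw g false m, m, rfl⟩ : (pw g false).range) =
        MonoidHom.ofInjective (hinj false) m := rfl
    rw [hφ, isoP, MulEquiv.trans_apply, h1, MulEquiv.symm_apply_apply]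
    rfl
  refine ⟨HNNExtension H _ _ φ, inferInstance, HNNExtension.of, HNNExtension.t,
    HNNExtension.of_injective φ, ?_, ?_⟩
  · have h1 : (HNNExtension.of (g true) : HNNExtension H _ _ φ) =
        HNNExtension.t * HNNExtension.of (g false) * HNNExtension.t⁻¹ := by
      have h2 := HNNExtension.equiv_eq_conj (φ := φ)
        ⟨pw g false (Multiplicative.ofAdd 1), Multiplicative.ofAdd 1, rfl⟩
      rw [hφ1] at h2
      simpa [pw] using h2
    intro d
    cases d
    · simp only [lamT, Bool.not_false, cond_true, cond_false]
      rw [h1]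
      group
    · simp only [lamT, Bool.not_true, cond_true, cond_false]
      rw [h1]
  · intro L c hL hv
    by_contra hno
    -- the reduced word
    have hchain : ∀ L : List (H × Bool), ¬ Has (Pinch g id) L →
        (toHNN c L).IsChain
          (fun a b => a.2 ∈ HNNExtension.toSubgroup (pw g false).range (pw g true).range a.1 →
            a.1 = b.1) := by
      intro L
      induction L with
      | nil => intro _; exact List.isChain_nil
      | cons e L ih =>
        obtain ⟨a, d⟩ := e
        intro h
        cases L with
        | nil => exact List.isChain_singleton _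
        | cons e' L' =>
          obtain ⟨b, d'⟩ := e'
          have h1 := ih (fun h2 => h (h2.cons _))
          refine List.isChain_cons_cons.2 ⟨?_, h1⟩
          intro h2
          by_contra h3
          apply h
          refine ⟨[], a, d, b, d', L', rfl, ?_⟩
          have h4 : b ∈ HNNExtension.toSubgroup (pw g false).range (pw g true).range (sgn d) := h2
          have h5 : ¬ sgn d = sgn d' := h3
          have h6 : d' = !d := by
            cases d <;> cases d' <;> simp_all
          subst h6
          cases d
          · have h7 : b ∈ (pw g true).range := h4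
            obtain ⟨m, rfl⟩ := h7
            exact pinch_id g false m.toAdd
          · have h7 : b ∈ (pw g false).range := h4
            obtain ⟨m, rfl⟩ := h7
            exact pinch_id g true m.toAdd
    have hprod : ∀ L : List (H × Bool),
        cval (HNNExtension.of (φ := φ)) (lamT HNNExtension.t) L c =
          HNNExtension.of (hd c L) * ((toHNN c L).map
            (fun x => HNNExtension.t ^ (x.1 : ℤ) * HNNExtension.of x.2)).prod := by
      intro L
      induction L with
      | nil => simp [cval_nil, hd, toHNN]
      | cons e L ih =>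
        obtain ⟨a, d⟩ := e
        rw [cval_cons, ih]
        have h1 : lamT (HNNExtension.t : HNNExtension H _ _ φ) d =
            HNNExtension.t ^ ((sgn d : ℤˣ) : ℤ) := by
          cases d <;> simp [lamT, sgn]
        simp only [toHNN, hd, List.map_cons, List.prod_cons, h1, mul_assoc]
    have h1 := HNNExtension.ReducedWord.toList_eq_nil_of_mem_of_range (φ := φ)
      ⟨hd c L, toHNN c L, hchain L hno⟩ (by
        refine ⟨1, ?_⟩
        rw [map_one, ← hv, hprod]
        rfl)
    apply hL
    cases L with
    | nil => rfl
    | cons e L => simp [toHNN] at h1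

end Two26
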