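import Pool.Agent.LibTwo26.Tree

/-!
# The line of the second type
-/

namespace Two26

open MM31

variable {X : Type}

theorem isReduced_invRev {R : List (Lt X)} (h : FreeGroup.IsReduced R) :
    FreeGroup.IsReduced (FreeGroup.invRev R) := by
  rw [FreeGroup.isReduced_iff_not_step] at h ⊢
  intro L hL
  have h1 := hL.invRev
  rw [FreeGroup.invRev_invRev] at h1
  exact h _ h1

/-- In the second type the cell of the strip with the number `1` does not dominate the base of the
cell with the number `2 m`. -/
theorem line {A : Set (FreeGroup X)} {u : FreeGroup X} {R₁ R₂ : List (Lt X)}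
    (hR : FreeGroup.IsReduced (R₂ ++ R₁)) (aU : Conn A 1 u) (a : ∀ x ∈ A, Conn A 1 x)
    (aV1 : ∀ x ∈ A, Conn A x (x * FreeGroup.mk R₁))
    (aV2 : ∀ x ∈ A, Conn A x (x * (FreeGroup.mk R₂)⁻¹))
    (b0 : FreeGroup.mk R₂ ∉ A) (b1 : u * (FreeGroup.mk R₁)⁻¹ ∉ A)
    {σ : FreeGroup X} (hσ : σ = u * ((FreeGroup.mk R₁)⁻¹ * (FreeGroup.mk R₂)⁻¹)) (m : ℤ) :
    σ ^ m * FreeGroup.mk R₂ ∉ A := by
  obtain ⟨V, hV⟩ : ∃ V : FreeGroup X, V = FreeGroup.mk R₁ := ⟨_, rfl⟩
  obtain ⟨W, hW⟩ : ∃ W : FreeGroup X, W = FreeGroup.mk R₂ := ⟨_, rfl⟩
  rw [← hV] at aV1 b1 hσ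
  rw [← hW] at aV2 b0 hσ ⊢
  have e1 : σ * W = u * V⁻¹ := by rw [hσ]; group
  have e2 : σ * (W * V) = u := by rw [hσ]; group
  have main : ∀ (n : ℕ) (m : ℤ), (2 * m - 1).natAbs = n → σ ^ m * W ∉ A := by
    intro n
    induction n using Nat.strong_induction_on with
    | _ n ih =>
      intro m hn hm
      have ih' : ∀ m' : ℤ, (2 * m' - 1).natAbs < (2 * m - 1).natAbs → σ ^ m' * W ∉ A := by
        intro m' h1
        exact ih _ (hn ▸ h1) m' rfl
      -- common paths
      have C3 := aV1 _ hm
      have C5 := aV2 _ hm
      rw [mul_inv_cancel_right] at C5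
      have e3 : σ ^ m * W * V = σ ^ (m - 1) * u := by
        rw [← e2, zpow_sub_one]
        group
      rw [e3] at C3
      have C4 : Conn A (σ ^ m) (σ ^ (m - 1) * u) := C5.symm.trans C3
      rcases lt_trichotomy m 0 with hm0 | rfl | hm0
      · -- m ≤ -1
        obtain ⟨S, hS⟩ : ∃ S : Set (FreeGroup X),
            S = {x | ∃ i : ℤ, m + 1 ≤ i ∧ i ≤ -m ∧ σ ^ i * x ∈ A} := ⟨_, rfl⟩
        have hSi : ∀ i : ℤ, m + 1 ≤ i → i ≤ -m → ∀ x ∈ A, σ ^ (-i) * x ∈ S := by
          intro i h1 h2 x hx
          rw [hS]
          refine ⟨i, h1, h2, ?_⟩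
          rw [← mul_assoc, ← zpow_add, add_neg_cancel, zpow_zero, one_mul]
          exact hx
        have hAS : A ⊆ S := by
          intro x hx
          have := hSi 0 (by omega) (by omega) x hx
          simpa using this
        have D : ∀ k : ℕ, (k : ℤ) ≤ -m - 1 → Conn S (σ ^ m) (σ ^ (m + k) * u) := by
          intro k
          induction k with
          | zero =>
            intro _
            have h1 := aU.translate (T := S) (σ ^ (-(-m))) (hSi (-m) (by omega) le_rfl)
            simpa using h1
          | succ k ihk =>
            intro hk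
            push_cast at hk
            have h1 := ihk (by omega)
            have h2 := C4.symm.translate (T := S) (σ ^ (-(-(k + 1 : ℤ))))
              (hSi (-(k + 1)) (by omega) (by omega))
            have h3 := aU.translate (T := S) (σ ^ (-(-(m + k + 1 : ℤ))))
              (hSi (-(m + k + 1)) (by omega) (by omega))
            have e4 : σ ^ (-(-(k + 1 : ℤ))) * (σ ^ (m - 1) * u) = σ ^ (m + k) * u := by
              rw [← mul_assoc, ← zpow_add]
              congr 2
              ring
            have e5 : σ ^ (-(-(k + 1 : ℤ))) * σ ^ m = σ ^ (m + k + 1 : ℤ) := by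
              rw [← zpow_add]
              congr 1
              ring
            rw [e4, e5] at h2
            rw [neg_neg, mul_one] at h3
            have e6 : (m + ((k + 1 : ℕ) : ℤ)) = m + k + 1 := by push_cast; ring
            rw [e6]
            exact (h1.trans h2).trans h3
        have hD := D (-m - 1).toNat (by omega)
        have e7 : m + ((-m - 1).toNat : ℤ) = -1 := by omega
        rw [e7, zpow_neg_one] at hD
        have e8 : σ⁻¹ * u = 1 * FreeGroup.mk (R₂ ++ R₁) := by
          rw [← FreeGroup.mul_mk, ← hV, ← hW, one_mul, ← e2]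
          group
        have hC := (((a _ hm).mono hAS).trans (C5.mono hAS)).trans hD
        have h1 := hC.geodesic hR e8
        rw [one_mul, ← hW, hS] at h1
        obtain ⟨i, h2, h3, h4⟩ := h1
        exact ih' i (by omega) h4
      · rw [zpow_zero, one_mul] at hm
        exact b0 hm
      · rcases (show m = 1 ∨ 2 ≤ m by omega) with rfl | hm2
        · rw [zpow_one, e1] at hm
          exact b1 hm
        · obtain ⟨S, hS⟩ : ∃ S : Set (FreeGroup X),
              S = {x | ∃ i : ℤ, 1 - m ≤ i ∧ i ≤ m - 2 ∧ σ ^ i * x ∈ A} := ⟨_, rfl⟩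
          have hSi : ∀ i : ℤ, 1 - m ≤ i → i ≤ m - 2 → ∀ x ∈ A, σ ^ (-i) * x ∈ S := by
            intro i h1 h2 x hx
            rw [hS]
            refine ⟨i, h1, h2, ?_⟩
            rw [← mul_assoc, ← zpow_add, add_neg_cancel, zpow_zero, one_mul]
            exact hx
          have hAS : A ⊆ S := by
            intro x hx
            have := hSi 0 (by omega) (by omega) x hx
            simpa using this
          have D : ∀ k : ℕ, (k : ℤ) ≤ m - 2 → Conn S (σ ^ (m - 1) * u) (σ ^ (m - 1 - k)) := by
            intro k
            induction k with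
            | zero =>
              intro _
              have h1 := aU.symm.translate (T := S) (σ ^ (-(1 - m)))
                (hSi (1 - m) (by omega) (by omega))
              have e4 : (-(1 - m) : ℤ) = m - 1 := by ring
              rw [e4, mul_one] at h1
              simpa using h1
            | succ k ihk =>
              intro hk
              push_cast at hk
              have h1 := ihk (by omega)
              have h2 := C4.translate (T := S) (σ ^ (-(k + 1 : ℤ)))
                (hSi (k + 1) (by omega) (by omega))
              have h3 := aU.symm.translate (T := S) (σ ^ (-(-(m - 1 - (k + 1)) : ℤ)))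
                (hSi (-(m - 1 - (k + 1))) (by omega) (by omega))
              have e4 : σ ^ (-(k + 1 : ℤ)) * (σ ^ (m - 1) * u) = σ ^ (m - 1 - (k + 1) : ℤ) * u := by
                rw [← mul_assoc, ← zpow_add]
                congr 2
                ring
              have e5 : σ ^ (-(k + 1 : ℤ)) * σ ^ m = σ ^ (m - 1 - k : ℤ) := by
                rw [← zpow_add]
                congr 1
                ring
              rw [e4, e5] at h2
              rw [neg_neg, mul_one] at h3
              have e6 : (m - 1 - ((k + 1 : ℕ) : ℤ)) = m - 1 - (k + 1) := by push_cast; ring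
              rw [e6]
              exact (h1.trans h2).trans h3
          have hD := D (m - 2).toNat (by omega)
          have e7 : m - 1 - ((m - 2).toNat : ℤ) = 1 := by omega
          rw [e7, zpow_one] at hD
          have hC := (((aU.symm.mono hAS).trans ((a _ hm).mono hAS)).trans (C3.mono hAS)).trans hD
          have e8 : σ = u * FreeGroup.mk (FreeGroup.invRev R₁ ++ FreeGroup.invRev R₂) := by
            rw [← FreeGroup.mul_mk, ← FreeGroup.inv_mk, ← FreeGroup.inv_mk, ← hV, ← hW]
            exact hσ
          have hR' : FreeGroup.IsReduced (FreeGroup.invRev R₁ ++ FreeGroup.invRev R₂) := by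
            rw [← FreeGroup.invRev_append]
            exact isReduced_invRev hR
          have h1 := hC.geodesic hR' e8
          rw [← FreeGroup.inv_mk, ← hV, hS] at h1
          obtain ⟨i, h2, h3, h4⟩ := h1
          have e9 : σ ^ i * (u * V⁻¹) = σ ^ (i + 1) * W := by
            rw [← e1, zpow_add_one, mul_assoc]
          rw [e9] at h4
          exact ih' (i + 1) (by omega) h4
  exact main _ m rfl

end Two26
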