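import Pool.Agent.LibTwo26.Cross
import Pool.Agent.LibTwo26.Line

/-!
# Neighbouring cells which do not dominate each other
-/

namespace Two26

open MM31

variable {X : Type}

/-- neither of two neighbouring cells of the strip dominates the other -/
def Inc (w : List (Lt X)) (k₁ k₂ : ℕ) (tt : Bool) : Prop :=
  ∀ d, ¬ Dom w (al w k₂ tt d) (be k₁ d) ∧ ¬ Dom w (be k₁ d) (al w k₂ tt d)

/-- the positions on the `u` side -/
def InU (k₁ k₂ : ℕ) (p : ℕ) : Prop := k₁ + 1 ≤ p ∧ p ≤ k₂

/-- the side in `u` -/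
def dU (tt π : Bool) : Bool := bif π then tt else false

theorem Fv_succ {w : List (Lt X)} {p : ℕ} {x : Lt X} (h : w[p]? = some x) :
    Fv w (p + 1) = Fv w p * FreeGroup.mk [x] := by
  unfold Fv
  rw [List.take_add_one, h, FreeGroup.mul_mk]
  rfl

section

variable {w : List (Lt X)} {z : X} {k₁ k₂ : ℕ} {ζ : Lt X} {tt : Bool}

theorem Setup.inc_or (S : Setup w z k₁ k₂ ζ tt) :
    (∀ d, AW w z (al w k₂ tt d) 1 (be k₁ d)) ∨ (∀ d, AW w z (be k₁ d) 1 (al w k₂ tt d)) ∨
      Inc w k₁ k₂ tt := by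
  have h1 : ∀ d, Dom w (al w k₂ tt d) (be k₁ d) → ∀ d, AW w z (al w k₂ tt d) 1 (be k₁ d) := by
    intro d h d'
    rcases Bool.eq_or_eq_not d' d with rfl | rfl
    · exact AW.of_dom h
    · exact S.strip.flip true false d (AW.of_dom h)
  have h2 : ∀ d, Dom w (be k₁ d) (al w k₂ tt d) → ∀ d, AW w z (be k₁ d) 1 (al w k₂ tt d) := by
    intro d h d'
    rcases Bool.eq_or_eq_not d' d with rfl | rfl
    · exact AW.of_dom h
    · exact S.strip.flip false true d (AW.of_dom h)
  by_cases h3 : ∃ d, Dom w (al w k₂ tt d) (be k₁ d)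
  · obtain ⟨d, h3⟩ := h3
    exact Or.inl (h1 d h3)
  · by_cases h4 : ∃ d, Dom w (be k₁ d) (al w k₂ tt d)
    · obtain ⟨d, h4⟩ := h4
      exact Or.inr (Or.inl (h2 d h4))
    · right; right
      intro d
      exact ⟨fun h => h3 ⟨d, h⟩, fun h => h4 ⟨d, h⟩⟩

theorem Setup.mv_U (S : Setup w z k₁ k₂ ζ tt) {p q : ℕ} {x : Lt X} (h : Mv w p x q)
    (hx : x.1 ≠ z) (hp : InU k₁ k₂ p) : InU k₁ k₂ q ∧ Fv w q = Fv w p * FreeGroup.mk [x] := by
  have hl := S.lt
  have hn := S.ltn
  obtain ⟨hp1, hp2⟩ := hp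
  rcases h with ⟨h1, h2, h3⟩ | ⟨h1, h2, h3⟩
  · have h4 : p ≠ k₂ := by
      rintro rfl
      have h5 := S.h2
      rw [h2] at h5
      have h6 := Option.some.inj h5
      apply hx
      rw [h6]
      have := S.z1
      cases tt
      · exact this
      · exact this
    rw [Nat.mod_eq_of_lt (by omega)] at h3
    subst h3
    exact ⟨⟨by omega, by omega⟩, Fv_succ h2⟩
  · have h4 : p = q + 1 := by
      rcases Nat.lt_or_ge (q + 1) w.length with h5 | h5
      · rwa [Nat.mod_eq_of_lt h5] at h3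
      · have h6 : q + 1 = w.length := by omega
        rw [h6, Nat.mod_self] at h3
        omega
    have h5 : q ≠ k₁ := by
      rintro rfl
      have h5 := S.h1
      rw [h2] at h5
      have h6 := Option.some.inj h5
      apply hx
      have h7 := congrArg Prod.fst h6
      have h8 := S.z1
      rw [← h8]
      exact h7
    subst h4
    refine ⟨⟨by omega, by omega⟩, ?_⟩
    rw [Fv_succ h2, mul_assoc]
    have h6 : (FreeGroup.mk [linv x] : FreeGroup X) * FreeGroup.mk [x] = 1 := by
      have h7 : (FreeGroup.mk [linv x] : FreeGroup X) = (FreeGroup.mk [x])⁻¹ := by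
        rw [FreeGroup.inv_mk]
        rfl
      rw [h7, inv_mul_cancel]
    rw [h6, mul_one]

theorem Setup.dom_U (S : Setup w z k₁ k₂ ζ tt) (hinc : Inc w k₁ k₂ tt) {p q : ℕ}
    (h : Dom w p q) (hq : InU k₁ k₂ q) : p = q := by
  induction h with
  | refl i => rfl
  | base i => exact absurd hq.1 (by omega)
  | trans i k l _ _ ih1 ih2 =>
    have h1 := ih2 hq
    subst h1
    exact ih1 hq
  | letter i k i' k' x hi hk h1 ih =>
    by_cases hx : x.1 = z
    · obtain ⟨π, d, h2, h3, h4⟩ := S.cross_conv hi hx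
      obtain ⟨π', d', h5, h6, h7⟩ := S.cross_conv hk hx
      have h8 : d = d' := by
        rw [h3] at h6
        cases d <;> cases d'
        · rfl
        · exact absurd h6 (linv_ne ζ)
        · exact absurd h6.symm (linv_ne ζ)
        · rfl
      subst h8
      rw [h4, h7] at h1
      rw [h2, h5]
      cases π <;> cases π'
      · rfl
      · exact absurd h1 (hinc (!d)).2
      · exact absurd h1 (hinc (!d)).1
      · rfl
    · have h2 := (S.mv_U hk hx hq).1
      have h3 := ih h2
      subst h3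
      exact Mv.det' S.red hi hk

theorem Setup.al_U (S : Setup w z k₁ k₂ ζ tt) (hinc : Inc w k₁ k₂ tt) {p q : ℕ}
    {L : List (Lt X)} (h : AL w z p L q) (hq : InU k₁ k₂ q) :
    InU k₁ k₂ p ∧ FreeGroup.mk L = (Fv w p)⁻¹ * Fv w q := by
  induction h with
  | nil h =>
    have h1 := S.dom_U hinc h hq
    subst h1
    exact ⟨hq, by rw [inv_mul_cancel]; rfl⟩
  | @cons p p' q' q x L h1 h2 h3 _ ih =>
    obtain ⟨h4, h5⟩ := ih hq
    obtain ⟨h6, h7⟩ := S.mv_U h2.symm h3 h4
    have h8 := S.dom_U hinc h1 h6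
    subst h8
    refine ⟨h6, ?_⟩
    have h9 := (S.mv_U h2 h3 h6).2
    have h10 : (FreeGroup.mk (x :: L) : FreeGroup X) = FreeGroup.mk [x] * FreeGroup.mk L := by
      rw [FreeGroup.mul_mk]
      rfl
    rw [h10, h5, h9]
    group

theorem Setup.aw_U (S : Setup w z k₁ k₂ ζ tt) (hinc : Inc w k₁ k₂ tt) {p q : ℕ}
    {a : FreeGroup X} (h : AW w z p a q) (hq : InU k₁ k₂ q) :
    InU k₁ k₂ p ∧ a = (Fv w p)⁻¹ * Fv w q := by
  obtain ⟨L, h1, rfl⟩ := h
  exact S.al_U hinc h1 hq

theorem Setup.dU_mem (S : Setup w z k₁ k₂ ζ tt) (π : Bool) :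
    InU k₁ k₂ (Pp w k₁ k₂ tt π (dU tt π)) := by
  have hl := S.lt
  cases π
  · exact ⟨le_refl _, hl⟩
  · cases tt
    · exact ⟨hl, le_refl _⟩
    · exact ⟨hl, le_refl _⟩

/-- Crossing into `u` and then out of `u` can be avoided. -/
theorem Setup.rdc_U (S : Setup w z k₁ k₂ ζ tt) (hinc : Inc w k₁ k₂ tt) {G : Type} [Group G]
    (ι : FreeGroup X →* G) (T : G)
    (hrel : ∀ d, lamT T d * ι (gg w k₁ k₂ (!d)) * lamT T (sB tt (!d)) = ι (gg w k₁ k₂ d))
    {π π' : Bool} {b : FreeGroup X}
    (h : AW w z (Pp w k₁ k₂ tt π (dU tt π)) b (Pp w k₁ k₂ tt π' (dU tt π'))) :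
    ∃ b', AW w z (Pp w k₁ k₂ tt π (!(dU tt π))) b' (Pp w k₁ k₂ tt π' (!(dU tt π'))) ∧
      ι b' = lamT T (!(dU tt π)) * ι b * lamT T (dU tt π') := by
  obtain ⟨_, h1⟩ := S.aw_U hinc h (S.dU_mem π')
  have hr := hrel true
  have hs1 : sB tt (!true) = tt := by cases tt <;> rfl
  rw [hs1] at hr
  by_cases hπ : π = π'
  · subst hπ
    rw [inv_mul_cancel] at h1
    subst h1
    refine ⟨1, AW.of_dom (Dom.refl _), ?_⟩
    have h2 := lamT_mul_not T (!(dU tt π))
    rw [Bool.not_not] at h2
    rw [map_one, mul_one, h2]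
  · cases π with
    | false =>
      cases π' with
      | false => exact absurd rfl hπ
      | true =>
        refine ⟨gg w k₁ k₂ true, ?_, ?_⟩
        · have h2 := S.strip.arc true
          have h3 : al w k₂ tt (sB tt true) = al w k₂ tt (!tt) := by cases tt <;> rfl
          rw [h3] at h2
          exact h2
        · rw [← hr, h1]
          cases tt <;> rfl
    | true =>
      cases π' with
      | true => exact absurd rfl hπ
      | false =>
        refine ⟨(gg w k₁ k₂ true)⁻¹, ?_, ?_⟩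
        · have h2 := S.strip.arcInv true
          have h3 : al w k₂ tt (sB tt true) = al w k₂ tt (!tt) := by cases tt <;> rfl
          rw [h3] at h2
          exact h2
        · have h4 : b = (gg w k₁ k₂ false)⁻¹ := by
            rw [h1]
            have h5 : Pp w k₁ k₂ tt true (dU tt true) = k₂ := by cases tt <;> rfl
            have h6 : Pp w k₁ k₂ tt false (dU tt false) = k₁ + 1 := rfl
            rw [h5, h6]
            simp [gg]
          rw [map_inv, ← hr, h4, map_inv]
          have h5 : (lamT T (!(dU tt true))) = (lamT T tt)⁻¹ := by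
            cases tt <;> simp [lamT, dU]
          have h6 : lamT T (dU tt false) = (lamT T true)⁻¹ := by simp [lamT, dU]
          rw [h5, h6]
          simp only [mul_inv_rev, mul_assoc]
          rfl

/-- the crossings all lead into `u`, or two consecutive ones can be avoided -/
theorem Setup.vu (S : Setup w z k₁ k₂ ζ tt) (hinc : Inc w k₁ k₂ tt) {G : Type} [Group G]
    (ι : FreeGroup X →* G) (T : G)
    (hrel : ∀ d, lamT T d * ι (gg w k₁ k₂ (!d)) * lamT T (sB tt (!d)) = ι (gg w k₁ k₂ d))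
    (L : List (FreeGroup X × Bool × Bool)) :
    ∀ (a : FreeGroup X) (π : Bool) (c : FreeGroup X) (q : ℕ),
      CW w z (Pp w k₁ k₂ tt) (Pp w k₁ k₂ tt π (dU tt π)) L c q →
      (∀ e ∈ L, e.2.1 = !(dU tt e.2.2)) ∨
        Rdc w z (Pp w k₁ k₂ tt) ι (lamT T) ((a, !(dU tt π), π) :: L) := by
  induction L with
  | nil =>
    intro a π c q _
    left
    simp
  | cons e L ih =>
    intro a π c q h
    obtain ⟨b, d₂, π'⟩ := e
    cases h with
    | cons h1 h2 =>
      rcases Bool.eq_or_eq_not d₂ (dU tt π') with rfl | rfl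
      · right
        obtain ⟨b', h3, h4⟩ := S.rdc_U hinc ι T hrel h1
        exact ⟨[], a, _, π, b, _, π', L, b', rfl, h3, h4⟩
      · rw [Bool.not_not] at h2
        rcases ih b π' c q h2 with h3 | h3
        · left
          intro e he
          rcases List.mem_cons.1 he with rfl | he
          · rfl
          · exact h3 e he
        · right
          exact h3.cons _

end

end Two26
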