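import Pool.Agent.LibTwo26.Final

/-!
# Words in which a letter occurs at most twice: the theorem
-/

namespace Two26

open MM31

variable {X : Type}

theorem val_take_free {G : Type} [Group G] {z : X} {ζ : Lt X} {ι : FreeGroup X →* G} {T : G}
    {w : List (Lt X)} {p q : ℕ} (hpq : p ≤ q) (hq : q ≤ w.length)
    (h : ∀ i x, p ≤ i → i < q → w[i]? = some x → x.1 ≠ z) :
    val (mapT z ζ ι T) (w.take q) =
      val (mapT z ζ ι T) (w.take p) * ι ((Fv w p)⁻¹ * Fv w q) := by
  induction q with
  | zero =>
    obtain rfl : p = 0 := by omega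
    rw [inv_mul_cancel, map_one, mul_one]
  | succ q ih =>
    rcases Nat.lt_or_ge p (q + 1) with h1 | h1
    · have h2 := ih (by omega) (by omega) (fun i x h3 h4 => h i x h3 (by omega))
      have h3 : q < w.length := by omega
      have h4 : w[q]? = some w[q] := List.getElem?_eq_getElem h3
      have h5 : val (mapT z ζ ι T) (w.take (q + 1)) =
          val (mapT z ζ ι T) (w.take q) * lval (mapT z ζ ι T) w[q] := by
        rw [List.take_add_one, h4, val_append]
        simp
      rw [h5, h2, mapT_ne (h q _ (by omega) (by omega) h4), Fv_succ h4]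
      simp only [map_mul, mul_assoc]
    · obtain rfl : p = q + 1 := by omega
      rw [inv_mul_cancel, map_one, mul_one]

theorem val_take_succ {G : Type} [Group G] (f : X → G) {w : List (Lt X)} {q : ℕ} {x : Lt X}
    (h : w[q]? = some x) : val f (w.take (q + 1)) = val f (w.take q) * lval f x := by
  rw [List.take_add_one, h, val_append]
  simp

section

variable {w : List (Lt X)} {z : X} {k₁ k₂ : ℕ} {ζ : Lt X} {tt : Bool}

theorem Setup.val_one (S : Setup w z k₁ k₂ ζ tt) {G : Type} [Group G]
    (ι : FreeGroup X →* G) (T : G)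
    (hrel : ∀ d, lamT T d * ι (gg w k₁ k₂ (!d)) * lamT T (sB tt (!d)) = ι (gg w k₁ k₂ d)) :
    val (mapT z ζ ι T) w = 1 := by
  have hl := S.lt
  have hn := S.ltn
  have h1 : val (mapT z ζ ι T) (w.take k₁) = ι (Fv w k₁) := by
    have h0 : Fv w 0 = 1 := by simp [Fv, FreeGroup.one_eq_mk]
    have h2 := val_take_free (ζ := ζ) (ι := ι) (T := T) (w := w) (z := z) (Nat.zero_le k₁)
      (by omega) (by
        intro i x h1 h2 h3 h4
        rcases S.only i x h3 h4 with rfl | rfl <;> omega)
    rw [h2, List.take_zero, val_nil, h0, inv_one, one_mul, one_mul]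
  have h2 := val_take_succ (mapT z ζ ι T) S.h1
  have h3 := val_take_free (ζ := ζ) (ι := ι) (T := T) (w := w) (z := z)
      (show k₁ + 1 ≤ k₂ by omega) (by omega) (by
        intro i x h1 h2 h3 h4
        rcases S.only i x h3 h4 with rfl | rfl <;> omega)
  have h4 := val_take_succ (mapT z ζ ι T) S.h2
  have h5 := val_take_free (ζ := ζ) (ι := ι) (T := T) (w := w) (z := z)
      (show k₂ + 1 ≤ w.length by omega) le_rfl (by
        intro i x h1 h2 h3 h4
        rcases S.only i x h3 h4 with rfl | rfl <;> omega)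
  have h6 : lval (mapT z ζ ι T) ζ = lamT T true := mapT_lam S.z1 true
  have h7 : lval (mapT z ζ ι T) (bif tt then ζ else linv ζ) = lamT T tt := mapT_lam S.z1 tt
  have hr := hrel true
  have hs1 : sB tt (!true) = tt := by cases tt <;> rfl
  rw [hs1] at hr
  rw [List.take_length] at h5
  rw [h5, h4, h3, h2, h1, h6, h7]
  have h8 : ι (Fv w k₁) * lamT T true * ι ((Fv w (k₁ + 1))⁻¹ * Fv w k₂) * lamT T tt *
      ι ((Fv w (k₂ + 1))⁻¹ * Fv w w.length) =
      ι (Fv w k₁) * (lamT T true * ι (gg w k₁ k₂ (!true)) * lamT T tt) *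
      ι ((Fv w (k₂ + 1))⁻¹ * Fv w w.length) := by
    simp only [mul_assoc]
    rfl
  rw [h8, hr, ← map_mul, ← map_mul, ← map_one ι]
  congr 1
  simp only [gg, cond_true]
  group

/-- walks with a value -/
def CWv (w : List (Lt X)) (z : X) (P : Bool → Bool → ℕ) {G : Type} [Group G]
    (ι : FreeGroup X →* G) (lam : Bool → G) (p : ℕ) (γ : G) (q : ℕ) : Prop :=
  ∃ L c, CW w z P p L c q ∧ cval ι lam (L.map fun e => (e.1, e.2.1)) c = γ

theorem CWv.comp {P : Bool → Bool → ℕ} {G : Type} [Group G]
    {ι : FreeGroup X →* G} {lam : Bool → G} {p q r : ℕ} {γ δ : G}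
    (h1 : CWv w z P ι lam p γ q) (h2 : CWv w z P ι lam q δ r) :
    CWv w z P ι lam p (γ * δ) r := by
  obtain ⟨L, c, h3, rfl⟩ := h1
  obtain ⟨L', c', h4, rfl⟩ := h2
  obtain ⟨L'', c'', _, h5, h6⟩ := h3.comp h4 ι lam
  exact ⟨L'', c'', h5, h6⟩

theorem CWv.of_AW {P : Bool → Bool → ℕ} {G : Type} [Group G]
    {ι : FreeGroup X →* G} {lam : Bool → G} {p q : ℕ} {a : FreeGroup X}
    (h : AW w z p a q) : CWv w z P ι lam p (ι a) q :=
  ⟨[], a, CW.nil h, by simp [cval_nil]⟩

theorem Setup.walk_take (S : Setup w z k₁ k₂ ζ tt) {G : Type} [Group G]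
    (ι : FreeGroup X →* G) (T : G) (k : ℕ) (hk : k ≤ w.length) :
    CWv w z (Pp w k₁ k₂ tt) ι (lamT T) 0 (val (mapT z ζ ι T) (w.take k)) (k % w.length) := by
  induction k with
  | zero =>
    have h1 := CWv.of_AW (P := Pp w k₁ k₂ tt) (ι := ι) (lam := lamT T)
      (AW.of_dom (w := w) (z := z) (Dom.refl 0))
    rw [Nat.zero_mod, List.take_zero, val_nil]
    rw [map_one] at h1
    exact h1
  | succ k ih =>
    have h1 := ih (by omega)
    have h3 : k < w.length := by omega
    have h4 : w[k]? = some w[k] := List.getElem?_eq_getElem h3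
    have h5 : Mv w (k % w.length) w[k] ((k + 1) % w.length) := by
      rw [Nat.mod_eq_of_lt h3]
      exact Or.inl ⟨h3, h4, rfl⟩
    rw [val_take_succ _ h4]
    refine h1.comp ?_
    by_cases hz : w[k].1 = z
    · obtain ⟨π, d, h6, h7, h8⟩ := S.cross_conv h5 hz
      rw [h6, h8, h7, mapT_lam S.z1]
      refine ⟨[(1, d, π)], 1, CW.cons (AW.of_dom (Dom.refl _)) (CW.nil (AW.of_dom (Dom.refl _))),
        ?_⟩
      simp [cval_cons, cval_nil]
    · rw [mapT_ne hz]
      exact CWv.of_AW (AW.step h5 hz)

theorem Setup.main (S : Setup w z k₁ k₂ ζ tt) {G : Type} [Group G]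
    (ι : FreeGroup X →* G) (T : G) (hι : Function.Injective ι)
    (hrel : ∀ d, lamT T d * ι (gg w k₁ k₂ (!d)) * lamT T (sB tt (!d)) = ι (gg w k₁ k₂ d))
    (hpinch : ∀ (L : List (FreeGroup X × Bool)) (c : FreeGroup X), L ≠ [] →
      cval ι (lamT T) L c = 1 → Has (Pinch (gg w k₁ k₂) (sB tt)) L)
    (j : ℕ) (hj : j < w.length) (h : EqOne w (w.rotate j)) : Dom w 0 j := by
  have hw := S.val_one ι T hrel
  obtain ⟨js, h1, h2⟩ := exists_list_of_mem_prefMon (mapT z ζ ι T) w hw
    (prefix_inv_mem_of_eqOne (mapT z ζ ι T) w hw j hj.le h)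
  have h3 : ∀ js : List ℕ, (∀ k ∈ js, 0 < k ∧ k < w.length) →
      CWv w z (Pp w k₁ k₂ tt) ι (lamT T) 0
        (js.map fun k => val (mapT z ζ ι T) (w.take k)).prod 0 := by
    intro js
    induction js with
    | nil =>
      intro _
      have h4 := CWv.of_AW (P := Pp w k₁ k₂ tt) (ι := ι) (lam := lamT T)
        (AW.of_dom (w := w) (z := z) (Dom.refl 0))
      rw [map_one] at h4
      exact h4
    | cons k js ih =>
      intro h4
      have h5 := ih (fun k hk => h4 k (List.mem_cons_of_mem _ hk))
      have h6 := S.walk_take ι T k (h4 k List.mem_cons_self).2.le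
      have h7 := CWv.of_AW (P := Pp w k₁ k₂ tt) (ι := ι) (lam := lamT T)
        (AW.of_dom (w := w) (z := z) (Dom.base (k % w.length)))
      have h8 := (h6.comp h7).comp h5
      rw [map_one, mul_one] at h8
      exact h8
  have h4 := (h3 js h1).comp (S.walk_take ι T j hj.le)
  rw [h2, inv_mul_cancel, Nat.mod_eq_of_lt hj] at h4
  obtain ⟨L, c, h5, h6⟩ := h4
  exact dom_of_rdc ι hι (lamT T)
    (fun L c q h7 h8 h9 => S.rdc ι T hrel hpinch L c q h7 h8 h9) L c j h5 h6

theorem mk_ne_one {R : List (Lt X)} (hR : FreeGroup.IsReduced R) (h0 : R ≠ []) :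
    (FreeGroup.mk R : FreeGroup X) ≠ 1 := by
  intro h
  obtain ⟨c, h1, h2⟩ := FreeGroup.Red.exact.1 (h.trans FreeGroup.one_eq_mk)
  rw [FreeGroup.Red.nil_iff] at h2
  subst h2
  exact h0 (hR.red_iff_eq.1 h1).symm

theorem mk_inj {R R' : List (Lt X)} (hR : FreeGroup.IsReduced R) (hR' : FreeGroup.IsReduced R')
    (h : (FreeGroup.mk R : FreeGroup X) = FreeGroup.mk R') : R = R' := by
  obtain ⟨c, h1, h2⟩ := FreeGroup.Red.exact.1 h
  rw [← hR.red_iff_eq.1 h1, ← hR'.red_iff_eq.1 h2]

theorem gg_false (w : List (Lt X)) (hl : k₁ + 1 ≤ k₂) :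
    gg w k₁ k₂ false = FreeGroup.mk ((w.take k₂).drop (k₁ + 1)) := by
  simp only [gg, cond_false, Fv]
  rw [inv_mul_eq_iff_eq_mul, FreeGroup.mul_mk]
  have h1 : w.take (k₁ + 1) = (w.take k₂).take (k₁ + 1) := by
    rw [List.take_take, min_eq_left hl]
  rw [h1, List.take_append_drop]

theorem gg_true (w : List (Lt X)) :
    gg w k₁ k₂ true = (FreeGroup.mk (w.drop (k₂ + 1) ++ w.take k₁))⁻¹ := by
  rw [← FreeGroup.mul_mk, ← Fv_drop]
  simp only [gg, cond_true, Fv]
  group

theorem Setup.final (S : Setup w z k₁ k₂ ζ tt) (j : ℕ) (hj : j < w.length)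
    (h : EqOne w (w.rotate j)) : Dom w 0 j := by
  have hl := S.lt
  have hn := S.ltn
  have hr1 : FreeGroup.IsReduced ((w.take k₂).drop (k₁ + 1)) := isReduced_mid S.red _ _
  have hr2 : FreeGroup.IsReduced (w.drop (k₂ + 1) ++ w.take k₁) := isReduced_of_cycRed S.red _ _
  cases tt with
  | false =>
    have h1 : ∀ d, gg w k₁ k₂ d ≠ 1 := by
      intro d
      cases d with
      | false =>
        rw [gg_false w (by omega)]
        apply mk_ne_one hr1
        intro h2
        have h3 := congrArg List.length h2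
        simp only [List.length_drop, List.length_take, List.length_nil] at h3
        have h4 : k₂ = k₁ + 1 := by omega
        have h5 := S.red.wf_succ ζ k₁ (by omega)
        rw [← h4] at h5
        apply h5
        have h6 := S.h1
        have h7 := S.h2
        simp [wf, h6, h7]
      | true =>
        rw [gg_true]
        rw [ne_eq, inv_eq_one]
        apply mk_ne_one hr2
        intro h2
        have h3 := congrArg List.length h2
        simp only [List.length_append, List.length_drop, List.length_take,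
          List.length_nil] at h3
        have h4 : k₁ = 0 := by omega
        have h5 := S.red.wf_last ζ (by omega)
        have h6 : w.length - 1 = k₂ := by omega
        rw [h6, ← h4] at h5
        apply h5
        have h7 := S.h1
        have h8 := S.h2
        simp [wf, h7, h8]
    obtain ⟨G, _, ι, T, h2, h3, h4⟩ := britI (gg w k₁ k₂) h1
    exact S.main ι T h2 h3 h4 j hj h
  | true =>
    by_cases hg : gg w k₁ k₂ true * gg w k₁ k₂ false = 1
    · -- a square
      rw [gg_false w (by omega), gg_true, inv_mul_eq_one] at hg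
      have h1 := mk_inj hr2 hr1 hg
      have h2 : w = w.take k₁ ++ ζ :: ((w.take k₂).drop (k₁ + 1) ++ ζ :: w.drop (k₂ + 1)) := by
        have h3 : w.drop k₁ = ζ :: w.drop (k₁ + 1) := by
          rw [List.drop_eq_getElem_cons (by omega)]
          congr 1
          have h4 := S.h1
          rw [List.getElem?_eq_getElem (by omega)] at h4
          exact Option.some.inj h4
        have h5 : w.drop k₂ = ζ :: w.drop (k₂ + 1) := by
          rw [List.drop_eq_getElem_cons (by omega)]
          congr 1
          have h4 := S.h2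
          rw [List.getElem?_eq_getElem (by omega)] at h4
          exact Option.some.inj h4
        have h6 : w.drop (k₁ + 1) = (w.take k₂).drop (k₁ + 1) ++ w.drop k₂ := by
          conv_lhs => rw [← List.take_append_drop k₂ w]
          rw [List.drop_append_of_le_length (by rw [List.length_take]; omega)]
        conv_lhs => rw [← List.take_append_drop k₁ w, h3, h6, h5]
      rw [← h1] at h2
      have h7 : w = (w.take k₁ ++ ζ :: w.drop (k₂ + 1)) ++ (w.take k₁ ++ ζ :: w.drop (k₂ + 1)) := by
        conv_lhs => rw [h2]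
        simp
      have h8 := congrArg List.length h7
      have h9 : (w.take k₁ ++ ζ :: w.drop (k₂ + 1)).length = k₁ + 1 + (w.length - (k₂ + 1)) := by
        simp only [List.length_append, List.length_take, List.length_cons, List.length_drop]
        omega
      rw [List.length_append, h9] at h8
      refine (eqOne_iff_dom_of_power w S.red (k₁ + 1 + (w.length - (k₂ + 1))) (by omega)
        (by omega) ?_ j hj).1 h
      rw [← h9]
      generalize w.take k₁ ++ ζ :: w.drop (k₂ + 1) = Z at h7
      conv_lhs => rw [h7]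
      rw [List.rotate_append_length_eq]
      exact h7.symm
    · obtain ⟨G, _, ι, T, h2, h3, h4⟩ := britII (gg w k₁ k₂) hg
      refine S.main ι T h2 ?_ h4 j hj h
      intro d
      have h5 : sB true (!d) = d := by cases d <;> rfl
      rw [h5]
      exact h3 d

end

/-- the letter occurs once -/
theorem once {w : List (Lt X)} {z : X} {k : ℕ} {ζ : Lt X} (hk : k < w.length)
    (h1 : w[k]? = some ζ) (z1 : ζ.1 = z)
    (only : ∀ i x, w[i]? = some x → x.1 = z → i = k) (j : ℕ) (hj : j < w.length)
    (h : EqOne w (w.rotate j)) : Dom w 0 j := by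
  -- arcs
  have f1 : ∀ i x, 0 ≤ i → i < k → w[i]? = some x → x.1 ≠ z := by
    intro i x _ h2 h3 h4
    have := only i x h3 h4
    omega
  have f2 : ∀ i x, k + 1 ≤ i → i < w.length → w[i]? = some x → x.1 ≠ z := by
    intro i x h2 _ h3 h4
    have := only i x h3 h4
    omega
  have a1 := AW.bwd (Nat.zero_le k) hk.le f1
  have a2 := AW.bwd (show k + 1 ≤ w.length by omega) le_rfl f2
  rw [Nat.zero_mod] at a1
  rw [Nat.mod_self] at a2
  have a3 := a1.comp a2
  obtain ⟨T, hT⟩ : ∃ T, T = (Fv w k)⁻¹ * Fv w 0 * ((Fv w w.length)⁻¹ * Fv w (k + 1)) :=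
    ⟨_, rfl⟩
  rw [← hT] at a3
  have h0 : Fv w 0 = 1 := by simp [Fv, FreeGroup.one_eq_mk]
  have hζ : lval (mapT z ζ (MonoidHom.id (FreeGroup X)) T) ζ = T := by
    have h2 := mapT_lam (ι := MonoidHom.id (FreeGroup X)) (T := T) z1 true
    exact h2
  -- the value of `w`
  have hw : val (mapT z ζ (MonoidHom.id (FreeGroup X)) T) w = 1 := by
    have h2 := val_take_free (ζ := ζ) (ι := MonoidHom.id (FreeGroup X)) (T := T)
      (Nat.zero_le k) hk.le f1
    have h3 := val_take_succ (mapT z ζ (MonoidHom.id (FreeGroup X)) T) h1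
    have h4 := val_take_free (ζ := ζ) (ι := MonoidHom.id (FreeGroup X)) (T := T)
      (show k + 1 ≤ w.length by omega) le_rfl f2
    rw [List.take_length] at h4
    rw [h4, h3, h2, hζ, List.take_zero, val_nil, hT, h0]
    simp only [MonoidHom.id_apply]
    group
  -- walks
  have step : ∀ i, i < w.length → AW w z (i % w.length)
      (lval (mapT z ζ (MonoidHom.id (FreeGroup X)) T) (w[i]?.getD ζ)) ((i + 1) % w.length) := by
    intro i hi
    have h4 : w[i]? = some w[i] := List.getElem?_eq_getElem hi
    rw [h4, Option.getD_some]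
    by_cases hz : w[i].1 = z
    · have h5 := only i _ h4 hz
      subst h5
      have h6 : w[i] = ζ := by
        rw [h1] at h4
        exact (Option.some.inj h4).symm
      rw [h6, hζ]
      exact a3
    · rw [mapT_ne hz]
      refine AW.step ?_ hz
      rw [Nat.mod_eq_of_lt hi]
      exact Or.inl ⟨hi, h4, rfl⟩
  have walk : ∀ i, i ≤ w.length → AW w z 0
      (val (mapT z ζ (MonoidHom.id (FreeGroup X)) T) (w.take i)) (i % w.length) := by
    intro i
    induction i with
    | zero =>
      intro _
      rw [Nat.zero_mod, List.take_zero, val_nil]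
      exact AW.of_dom (Dom.refl _)
    | succ i ih =>
      intro hi
      have h4 : w[i]? = some w[i] := List.getElem?_eq_getElem (by omega)
      have h5 := (ih (by omega)).comp (step i (by omega))
      rw [val_take_succ _ h4]
      rw [h4, Option.getD_some] at h5
      exact h5
  obtain ⟨js, h2, h3⟩ := exists_list_of_mem_prefMon _ w hw
    (prefix_inv_mem_of_eqOne _ w hw j hj.le h)
  have h4 : ∀ js : List ℕ, (∀ k ∈ js, 0 < k ∧ k < w.length) →
      AW w z 0 (js.map fun k => val (mapT z ζ (MonoidHom.id (FreeGroup X)) T)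
        (w.take k)).prod 0 := by
    intro js
    induction js with
    | nil =>
      intro _
      exact AW.of_dom (Dom.refl _)
    | cons i js ih =>
      intro h4
      have h5 := ih (fun k hk => h4 k (List.mem_cons_of_mem _ hk))
      have h6 := walk i (h4 i List.mem_cons_self).2.le
      have h8 := (h6.comp (AW.of_dom (Dom.base (i % w.length)))).comp h5
      rw [mul_one] at h8
      exact h8
  have h5 := (h4 js h2).comp (walk j hj.le)
  rw [h3, inv_mul_cancel, Nat.mod_eq_of_lt hj] at h5
  exact h5.dom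

end Two26
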