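import Pool.Agent.LibTwo26.Inc

/-!
# No pinches between cells which do not dominate each other
-/

namespace Two26

open MM31

variable {X : Type}

theorem posP_id_side {H : Type} [Group H] {g : Bool → H} {j : ℕ} {d d' : Bool} {x : H}
    (h : PosP g (sB false) j d x d') : d' = d := by
  induction h with
  | zero => rfl
  | succ _ ih => exact ih

theorem posP_not_val {H : Type} [Group H] {g : Bool → H} {j : ℕ} {d d' : Bool} {x : H}
    (h : PosP g (sB true) j d x d') :
    ∃ m : ℕ, x = (g d * g (!d)) ^ m * (if d' = d then 1 else g d) := by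
  induction h with
  | zero => exact ⟨0, by simp⟩
  | @succ j d d' x _ ih =>
    obtain ⟨m, hm⟩ := ih
    rcases Bool.eq_or_eq_not d' d with rfl | rfl
    · refine ⟨m, ?_⟩
      have h1 : sB true d' ≠ d' := by cases d' <;> simp [sB]
      rw [hm, if_pos rfl, if_neg h1, mul_one]
    · refine ⟨m + 1, ?_⟩
      have h1 : sB true (!d) = d := by cases d <;> rfl
      have h2 : (!d) ≠ d := by cases d <;> simp
      rw [hm, if_neg h2, h1, if_pos rfl, mul_one, pow_succ, mul_assoc]

theorem zconj {H : Type} [Group H] (a b : H) (m : ℤ) :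
    a * (b * a) ^ m = (a * b) ^ m * a := by
  have h1 : b * a = a⁻¹ * (a * b) * a := by group
  have h2 : (a⁻¹ * (a * b) * a) ^ m = a⁻¹ * (a * b) ^ m * a := by
    have := conj_zpow (a := a⁻¹) (b := a * b) (i := m)
    rw [inv_inv] at this
    exact this
  rw [h1, h2]
  group

/-- the value of a pinch between two crossings into `u`, second type -/
theorem pinch_val {H : Type} [Group H] {g : Bool → H} {π π' : Bool} {b : H}
    (h : Pinch g (sB true) (!π) b (!π')) :
    ∃ m : ℤ, (bif π then g false else 1) * b * (bif π' then 1 else g true) =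
      (g false * g true) ^ m := by
  have e0 : ∀ m : ℤ, (g true * g false) ^ m = (g false)⁻¹ * (g false * g true) ^ m * g false := by
    intro m
    rw [mul_assoc, ← zconj]
    group
  have e1 : ∀ m : ℤ, (g true * g false) ^ m = g true * (g false * g true) ^ m * (g true)⁻¹ := by
    intro m
    rw [zconj]
    group
  obtain ⟨j, h | h⟩ := h
  · rw [Bool.not_not] at h
    obtain ⟨m, hm⟩ := posP_not_val h
    rw [← zpow_natCast] at hm
    cases π <;> cases π'
    · refine ⟨m + 1, ?_⟩
      rw [hm]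
      simp [zpow_add_one, mul_assoc]
    · refine ⟨m, ?_⟩
      rw [hm]
      simp
    · refine ⟨m + 1, ?_⟩
      rw [hm, Bool.not_true, e0]
      simp [zpow_add_one, mul_assoc]
    · refine ⟨m + 1, ?_⟩
      rw [hm, Bool.not_true, e0]
      simp [zpow_add_one, mul_assoc]
  · rw [Bool.not_not] at h
    obtain ⟨m, hm⟩ := posP_not_val h
    rw [← zpow_natCast] at hm
    have hb : b = (((g (!π') * g (!!π')) ^ (m : ℤ)) * (if π = !π' then 1 else g (!π')))⁻¹ := by
      rw [← hm, inv_inv]
    cases π <;> cases π'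
    · refine ⟨-m, ?_⟩
      rw [hb]
      simp only [Bool.not_false, Bool.not_true]
      rw [e1, zpow_neg]
      simp
    · refine ⟨-m, ?_⟩
      rw [hb, zpow_neg]
      simp
    · refine ⟨-m + 1, ?_⟩
      rw [hb]
      simp only [Bool.not_false, Bool.not_true]
      rw [e0, zpow_add_one, zpow_neg]
      simp
      group
    · refine ⟨-m, ?_⟩
      rw [hb, zpow_neg]
      simp

theorem red_of_ne {a b : Lt X} (h : b ≠ linv a) : a.1 = b.1 → a.2 = b.2 := by
  intro h1
  by_contra h2
  apply h
  have h3 : b.2 = !a.2 := by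
    revert h2
    cases a.2 <;> cases b.2 <;> simp
  exact Prod.ext h1.symm h3

theorem isReduced_self {w : List (Lt X)} (h : CycRed w) : FreeGroup.IsReduced w :=
  h.1.imp fun _ _ h1 => red_of_ne h1

theorem isReduced_drop {w : List (Lt X)} (h : FreeGroup.IsReduced w) (a : ℕ) :
    FreeGroup.IsReduced (w.drop a) := by
  have h1 := h
  unfold FreeGroup.IsReduced at h1
  rw [← List.take_append_drop a w, List.isChain_append] at h1
  exact h1.2.1

theorem isReduced_take {w : List (Lt X)} (h : FreeGroup.IsReduced w) (a : ℕ) :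
    FreeGroup.IsReduced (w.take a) := by
  have h1 := h
  unfold FreeGroup.IsReduced at h1
  rw [← List.take_append_drop a w, List.isChain_append] at h1
  exact h1.1

theorem isReduced_mid {w : List (Lt X)} (h : CycRed w) (a b : ℕ) :
    FreeGroup.IsReduced ((w.take b).drop a) :=
  isReduced_drop (isReduced_take (isReduced_self h) b) a

theorem isReduced_of_cycRed {w : List (Lt X)} (h : CycRed w) (a b : ℕ) :
    FreeGroup.IsReduced (w.drop b ++ w.take a) := by
  unfold FreeGroup.IsReduced
  rw [List.isChain_append]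
  refine ⟨isReduced_drop (isReduced_self h) b, isReduced_take (isReduced_self h) a, ?_⟩
  intro x hx y hy
  have hx' : x ∈ w.getLast? := by
    rcases Nat.lt_or_ge b w.length with h1 | h1
    · rw [List.getLast?_drop, if_neg (by omega)] at hx
      exact hx
    · rw [List.drop_eq_nil_of_le h1] at hx
      simp at hx
  have hy' : y ∈ w.head? := by
    rcases Nat.eq_zero_or_pos a with h1 | h1
    · rw [h1, List.take_zero] at hy
      simp at hy
    · rw [List.head?_take, if_neg (by omega)] at hy
      exact hy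
  apply red_of_ne
  exact h.2 y hy' x hx'

section

variable {w : List (Lt X)} {z : X} {k₁ k₂ : ℕ} {ζ : Lt X} {tt : Bool}

theorem conn_of_AW {p q r : ℕ} {a b : FreeGroup X} (h1 : AW w z p a q) (h2 : AW w z q b r) :
    Conn {x | AW w z p x 0} a (a * b) := by
  obtain ⟨M, h3, rfl⟩ := h2
  refine ⟨M, rfl, ?_⟩
  rintro K ⟨N, rfl⟩
  obtain ⟨r', h4, _⟩ := h3.split
  have h5 : AW w z q (FreeGroup.mk K) r' := ⟨K, h4, rfl⟩
  have h6 := (h1.comp h5).comp (AW.of_dom (z := z) (Dom.base r'))
  rw [mul_one] at h6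
  exact h6

theorem Fv_drop (w : List (Lt X)) (k : ℕ) :
    (Fv w k)⁻¹ * Fv w w.length = FreeGroup.mk (w.drop k) := by
  unfold Fv
  rw [List.take_length, inv_mul_eq_iff_eq_mul, FreeGroup.mul_mk, List.take_append_drop]

/-- second type: no domination along the line -/
theorem Setup.noLine (S : Setup w z k₁ k₂ ζ true) (hinc : Inc w k₁ k₂ true) (m : ℤ) :
    ¬ AW w z (k₁ + 1) ((gg w k₁ k₂ false * gg w k₁ k₂ true) ^ m *
      ((Fv w (k₂ + 1))⁻¹ * Fv w w.length)) 0 := by
  have hl := S.lt
  have hn := S.ltn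
  have hu := S.arcU (le_refl (k₁ + 1)) (show k₁ + 1 ≤ k₂ by omega) (le_refl k₂)
  have h1 : AW w z (k₁ + 1) 1 (k₁ + 1) := AW.of_dom (Dom.refl _)
  have hD : (Fv w (k₂ + 1))⁻¹ * Fv w w.length = FreeGroup.mk (w.drop (k₂ + 1)) := Fv_drop _ _
  rw [hD]
  have hV1 := S.arcV1
  have hV2 := S.arcV2
  have hD' : (Fv w w.length)⁻¹ * Fv w (k₂ + 1) = (FreeGroup.mk (w.drop (k₂ + 1)))⁻¹ := by
    rw [← hD]
    group
  rw [hD'] at hV2
  refine line (A := {x | AW w z (k₁ + 1) x 0}) (u := gg w k₁ k₂ false) (R₁ := w.take k₁)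
    (R₂ := w.drop (k₂ + 1)) (isReduced_of_cycRed S.red _ _) ?_ ?_ ?_ ?_ ?_ ?_
    ?_ m
  · have h2 := conn_of_AW h1 hu.1
    rw [one_mul] at h2
    exact h2
  · intro x hx
    have h2 := conn_of_AW h1 hx
    rw [one_mul] at h2
    exact h2
  · intro x hx
    exact conn_of_AW hx hV1.1
  · intro x hx
    exact conn_of_AW hx hV2.2
  · intro hx
    have hx' : AW w z (k₁ + 1) (FreeGroup.mk (w.drop (k₂ + 1))) 0 := hx
    have h2 := hx'.comp hV2.2
    rw [mul_inv_cancel] at h2
    exact (hinc false).2 h2.dom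
  · intro hx
    have hx' : AW w z (k₁ + 1) (gg w k₁ k₂ false * (Fv w k₁)⁻¹) 0 := hx
    have h2 := (hu.2.comp hx').comp hV1.1
    have h3 : (Fv w k₂)⁻¹ * Fv w (k₁ + 1) * (gg w k₁ k₂ false * (Fv w k₁)⁻¹) * Fv w k₁ = 1 := by
      simp only [gg, cond_false]
      group
    rw [h3] at h2
    exact (hinc true).1 h2.dom
  · congr 1
    simp only [gg, cond_true]
    rw [hD']
    rfl

/-- no pinch between two crossings into `u` -/
theorem Setup.noPinch (S : Setup w z k₁ k₂ ζ tt) (hinc : Inc w k₁ k₂ tt) {π π' : Bool}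
    {b : FreeGroup X}
    (h : AW w z (Pp w k₁ k₂ tt π (dU tt π)) b (Pp w k₁ k₂ tt π' (!(dU tt π'))))
    (hp : Pinch (gg w k₁ k₂) (sB tt) (!(dU tt π)) b (!(dU tt π'))) : False := by
  have hl := S.lt
  have hn := S.ltn
  cases tt with
  | false =>
    have h1 : ∀ π, dU false π = false := by intro π; cases π <;> rfl
    rw [h1, h1] at hp
    obtain ⟨j, hp | hp⟩ := hp
    · exact absurd (posP_id_side hp) (by simp)
    · exact absurd (posP_id_side hp) (by simp)
  | true =>
    have h1 : ∀ π, dU true π = π := by intro π; cases π <;> rfl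
    rw [h1, h1] at hp h
    obtain ⟨m, hm⟩ := pinch_val hp
    have hu := S.arcU (le_refl (k₁ + 1)) (show k₁ + 1 ≤ k₂ by omega) (le_refl k₂)
    have h2 : AW w z (k₁ + 1) (bif π then gg w k₁ k₂ false else 1) (Pp w k₁ k₂ true π π) := by
      cases π
      · exact AW.of_dom (Dom.refl _)
      · exact hu.1
    have h3 : AW w z (Pp w k₁ k₂ true π' (!π')) ((bif π' then 1 else gg w k₁ k₂ true) *
        ((Fv w (k₂ + 1))⁻¹ * Fv w w.length)) 0 := by
      cases π'
      · have h4 := S.arcV1.2
        have h5 : (Fv w k₁)⁻¹ = gg w k₁ k₂ true * ((Fv w (k₂ + 1))⁻¹ * Fv w w.length) := by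
          simp only [gg, cond_true]
          group
        rw [h5] at h4
        exact h4
      · rw [cond_true, one_mul]
        exact S.arcV2.1
    have h4 := (h2.comp h).comp h3
    rw [← mul_assoc, hm] at h4
    exact S.noLine hinc m h4

end

end Two26
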