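import Pool.Agent.LibTwo26.Tree
import Pool.Agent.LibTwo26.Amalg

/-!
# A letter which occurs twice
-/

namespace Two26

open MM31

variable {X : Type}

/-- the next side -/
def sB (tt : Bool) (d : Bool) : Bool := bif tt then !d else d

theorem sB_sB (tt d : Bool) : sB tt (sB tt d) = d := by cases tt <;> simp [sB]

theorem sB_not (tt d : Bool) : sB tt (!d) = !(sB tt d) := by cases tt <;> simp [sB]

/-- the end of a stub in the cell on the `k₂` side -/
def al (w : List (Lt X)) (k₂ : ℕ) (tt : Bool) (d : Bool) : ℕ :=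
  bif sB tt d then (k₂ + 1) % w.length else k₂

/-- the end of a stub in the cell on the `k₁` side -/
def be (k₁ : ℕ) (d : Bool) : ℕ := bif d then k₁ else k₁ + 1

/-- both -/
def Pp (w : List (Lt X)) (k₁ k₂ : ℕ) (tt : Bool) (π d : Bool) : ℕ :=
  bif π then al w k₂ tt d else be k₁ d

/-- the letter of a crossing -/
def lamL (ζ : Lt X) (d : Bool) : Lt X := bif d then ζ else linv ζ

/-- the arcs -/
def gg (w : List (Lt X)) (k₁ k₂ : ℕ) (d : Bool) : FreeGroup X :=
  bif d then (Fv w k₁)⁻¹ * ((Fv w w.length)⁻¹ * Fv w (k₂ + 1)) else (Fv w (k₁ + 1))⁻¹ * Fv w k₂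

/-- `w` is cyclically reduced, and the letter `z` occurs at the positions `k₁ < k₂` and nowhere
else; `tt` says whether with the same sign. -/
structure Setup (w : List (Lt X)) (z : X) (k₁ k₂ : ℕ) (ζ : Lt X) (tt : Bool) : Prop where
  red : CycRed w
  lt : k₁ < k₂
  ltn : k₂ < w.length
  h1 : w[k₁]? = some ζ
  h2 : w[k₂]? = some (bif tt then ζ else linv ζ)
  z1 : ζ.1 = z
  only : ∀ k x, w[k]? = some x → x.1 = z → k = k₁ ∨ k = k₂

section

variable {w : List (Lt X)} {z : X} {k₁ k₂ : ℕ} {ζ : Lt X} {tt : Bool}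

theorem Setup.cross (S : Setup w z k₁ k₂ ζ tt) (π d : Bool) :
    Mv w (Pp w k₁ k₂ tt π d) (lamL ζ d) (Pp w k₁ k₂ tt π (!d)) := by
  have hl := S.lt
  have hn := S.ltn
  have m1 : Mv w k₁ ζ (k₁ + 1) := by
    refine Or.inl ⟨by omega, S.h1, ?_⟩
    rw [Nat.mod_eq_of_lt (by omega)]
  have m2 : Mv w k₂ (bif tt then ζ else linv ζ) ((k₂ + 1) % w.length) :=
    Or.inl ⟨hn, S.h2, rfl⟩
  cases π with
  | false =>
    cases d with
    | false => exact m1.symm
    | true => exact m1
  | true =>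
    cases tt with
    | false =>
      cases d with
      | false => exact m2
      | true =>
        have := m2.symm
        simp only [cond_false, linv_linv] at this
        exact this
    | true =>
      cases d with
      | false => exact m2.symm
      | true => exact m2

theorem Setup.cross_conv (S : Setup w z k₁ k₂ ζ tt) {p q : ℕ} {x : Lt X} (h : Mv w p x q)
    (hx : x.1 = z) : ∃ π d, p = Pp w k₁ k₂ tt π d ∧ x = lamL ζ d ∧ q = Pp w k₁ k₂ tt π (!d) := by
  have hl := S.lt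
  have hn := S.ltn
  -- forward moves
  have key : ∀ (p q : ℕ) (x : Lt X), x.1 = z → p < w.length → w[p]? = some x →
      q = (p + 1) % w.length →
      ∃ π d, p = Pp w k₁ k₂ tt π d ∧ x = lamL ζ d ∧ q = Pp w k₁ k₂ tt π (!d) := by
    intro p q x hx hp h1 h2
    rcases S.only p x h1 hx with rfl | rfl
    · refine ⟨false, true, rfl, ?_, ?_⟩
      · have h3 := S.h1
        rw [h1] at h3
        exact Option.some.inj h3
      · rw [h2, Nat.mod_eq_of_lt (by omega)]
        rfl
    · have h3 := S.h2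
      rw [h1] at h3
      have h4 := Option.some.inj h3
      refine ⟨true, tt, ?_, ?_, ?_⟩
      · cases tt <;> rfl
      · rw [h4]
        cases tt <;> rfl
      · rw [h2]
        cases tt <;> rfl
  rcases h with ⟨h1, h2, h3⟩ | ⟨h1, h2, h3⟩
  · exact key p q x hx h1 h2 h3
  · obtain ⟨π, d, h4, h5, h6⟩ := key q p (linv x) hx h1 h2 h3
    refine ⟨π, !d, h6, ?_, ?_⟩
    · have h7 : x = linv (lamL ζ d) := by rw [← h5, linv_linv]
      rw [h7]
      cases d <;> simp [lamL]
    · rw [Bool.not_not]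
      exact h4

theorem Setup.arcU (S : Setup w z k₁ k₂ ζ tt) {p q : ℕ} (hp : k₁ + 1 ≤ p) (hpq : p ≤ q)
    (hq : q ≤ k₂) : AW w z p ((Fv w p)⁻¹ * Fv w q) q ∧ AW w z q ((Fv w q)⁻¹ * Fv w p) p := by
  have hl := S.lt
  have hn := S.ltn
  have h0 : ∀ i x, p ≤ i → i < q → w[i]? = some x → x.1 ≠ z := by
    intro i x h1 h2 h3 h4
    rcases S.only i x h3 h4 with rfl | rfl <;> omega
  have h1 := AW.fwd hpq (by omega) h0
  have h2 := AW.bwd hpq (by omega) h0
  rw [Nat.mod_eq_of_lt (show p < w.length by omega),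
    Nat.mod_eq_of_lt (show q < w.length by omega)] at h1 h2
  exact ⟨h1, h2⟩

theorem Setup.arcV1 (S : Setup w z k₁ k₂ ζ tt) :
    AW w z 0 (Fv w k₁) k₁ ∧ AW w z k₁ (Fv w k₁)⁻¹ 0 := by
  have hl := S.lt
  have hn := S.ltn
  have h0 : ∀ i x, 0 ≤ i → i < k₁ → w[i]? = some x → x.1 ≠ z := by
    intro i x h1 h2 h3 h4
    rcases S.only i x h3 h4 with rfl | rfl <;> omega
  have h1 := AW.fwd (Nat.zero_le k₁) (by omega) h0
  have h2 := AW.bwd (Nat.zero_le k₁) (by omega) h0
  have h3 : Fv w 0 = 1 := by simp [Fv, FreeGroup.one_eq_mk]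
  rw [Nat.zero_mod, Nat.mod_eq_of_lt (show k₁ < w.length by omega), h3] at h1 h2
  rw [inv_one, one_mul] at h1
  rw [mul_one] at h2
  exact ⟨h1, h2⟩

theorem Setup.arcV2 (S : Setup w z k₁ k₂ ζ tt) :
    AW w z ((k₂ + 1) % w.length) ((Fv w (k₂ + 1))⁻¹ * Fv w w.length) 0 ∧
      AW w z 0 ((Fv w w.length)⁻¹ * Fv w (k₂ + 1)) ((k₂ + 1) % w.length) := by
  have hl := S.lt
  have hn := S.ltn
  have h0 : ∀ i x, k₂ + 1 ≤ i → i < w.length → w[i]? = some x → x.1 ≠ z := by
    intro i x h1 h2 h3 h4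
    rcases S.only i x h3 h4 with rfl | rfl <;> omega
  have h1 := AW.fwd (show k₂ + 1 ≤ w.length by omega) le_rfl h0
  have h2 := AW.bwd (show k₂ + 1 ≤ w.length by omega) le_rfl h0
  rw [Nat.mod_self] at h1 h2
  exact ⟨h1, h2⟩

theorem Setup.strip (S : Setup w z k₁ k₂ ζ tt) :
    StripData (AW w z) (gg w k₁ k₂) (sB tt) (al w k₂ tt) (be k₁) where
  refl := fun p => AW.of_dom (Dom.refl p)
  comp := fun h1 h2 => h1.comp h2
  arc := by
    intro d
    have hl := S.lt
    have hn := S.ltn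
    cases d with
    | false =>
      have h1 := (S.arcU (le_refl (k₁ + 1)) (show k₁ + 1 ≤ k₂ by omega) (le_refl k₂)).1
      have h2 : al w k₂ tt (sB tt false) = k₂ := by rw [al, sB_sB]; rfl
      rw [h2]
      exact h1
    | true =>
      have h2 : al w k₂ tt (sB tt true) = (k₂ + 1) % w.length := by rw [al, sB_sB]; rfl
      rw [h2]
      exact S.arcV1.2.comp S.arcV2.2
  arcInv := by
    intro d
    have hl := S.lt
    have hn := S.ltn
    cases d with
    | false =>
      have h1 := (S.arcU (le_refl (k₁ + 1)) (show k₁ + 1 ≤ k₂ by omega) (le_refl k₂)).2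
      have h2 : al w k₂ tt (sB tt false) = k₂ := by rw [al, sB_sB]; rfl
      have h3 : (gg w k₁ k₂ false)⁻¹ = (Fv w k₂)⁻¹ * Fv w (k₁ + 1) := by
        simp [gg]
      rw [h2, h3]
      exact h1
    | true =>
      have h2 : al w k₂ tt (sB tt true) = (k₂ + 1) % w.length := by rw [al, sB_sB]; rfl
      have h3 : (gg w k₁ k₂ true)⁻¹ = ((Fv w (k₂ + 1))⁻¹ * Fv w w.length) * Fv w k₁ := by
        simp [gg, mul_assoc]
      rw [h2, h3]
      exact S.arcV2.1.comp S.arcV1.1
  ss := sB_sB tt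
  sn := sB_not tt
  flip := by
    intro π π' d h
    have h1 := h.dom
    have c1 := S.cross π (!d)
    have c2 := S.cross π' (!d)
    rw [Bool.not_not] at c1 c2
    exact AW.of_dom (Dom.letter _ _ _ _ _ c1 c2 h1)

end

end Two26
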