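import Mathlib

/-!
# Rerouting a walk around a strip
-/

namespace Two26

variable {H : Type} [Group H]

/-- `PosP g s j d x d'`: `j` steps of the strip lead from the side `d` to the side `d'` and read
`x`. -/
inductive PosP (g : Bool → H) (s : Bool → Bool) : ℕ → Bool → H → Bool → Prop
  | zero (d : Bool) : PosP g s 0 d 1 d
  | succ {j : ℕ} {d d' : Bool} {x : H} : PosP g s j d x d' → PosP g s (j + 1) d (x * g d') (s d')

theorem PosP.front {g : Bool → H} {s : Bool → Bool} {j : ℕ} {d d' : Bool} {x : H}
    (h : PosP g s (j + 1) d x d') : ∃ y, x = g d * y ∧ PosP g s j (s d) y d' := by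
  induction j generalizing x d' with
  | zero =>
    cases h with
    | succ h =>
      cases h with
      | zero => exact ⟨1, by rw [one_mul, mul_one], PosP.zero _⟩
  | succ j ih =>
    cases h with
    | @succ _ _ d₁ x₁ h =>
      obtain ⟨y, h1, h2⟩ := ih h
      exact ⟨y * g d₁, by rw [h1, mul_assoc], PosP.succ h2⟩

theorem PosP.cons {g : Bool → H} {s : Bool → Bool} {j : ℕ} {d d' : Bool} {y : H}
    (h : PosP g s j (s d) y d') : PosP g s (j + 1) d (g d * y) d' := by
  induction j generalizing y d' with
  | zero =>
    cases h with
    | zero => rw [mul_one]; simpa using PosP.succ (PosP.zero (g := g) (s := s) d)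
  | succ j ih =>
    cases h with
    | @succ _ _ d₁ x₁ h =>
      rw [← mul_assoc]
      exact PosP.succ (ih h)

/-- Reversing a strip. -/
theorem PosP.rev {g : Bool → H} {s : Bool → Bool} (hs : ∀ d, s (s d) = d) {j : ℕ}
    {d d' : Bool} {x : H} (h : PosP g s j d x d') :
    PosP (fun d => (g (s d))⁻¹) s j d' x⁻¹ d := by
  induction h with
  | zero => rw [inv_one]; exact PosP.zero _
  | @succ j d d' x _ ih =>
    have h1 : PosP (fun d => (g (s d))⁻¹) s j (s (s d')) x⁻¹ d := by rw [hs]; exact ih
    have h2 := h1.cons
    simp only [hs] at h2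
    rwa [mul_inv_rev]

/-- The other side of the strip. -/
theorem PosP.flip {G : Type} [Group G] {g : Bool → H} {s : Bool → Bool} (ι : H →* G)
    (lam : Bool → G) (hlam : ∀ d, lam d * lam (!d) = 1) (hsn : ∀ d, s (!d) = !(s d))
    (hrel : ∀ d, lam d * ι (g (!d)) * lam (s (!d)) = ι (g d))
    {j : ℕ} {d d' : Bool} {x : H} (h : PosP g s j d x d') :
    ∃ x', PosP g s j (!d) x' (!d') ∧ ι x' = lam (!d) * ι x * lam d' := by
  induction h with
  | zero d =>
    refine ⟨1, PosP.zero _, ?_⟩
    have h1 := hlam (!d)
    rw [Bool.not_not] at h1
    rw [map_one, mul_one, h1]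
  | @succ j d d' x _ ih =>
    obtain ⟨x', h1, h2⟩ := ih
    refine ⟨x' * g (!d'), ?_, ?_⟩
    · rw [← hsn]
      exact PosP.succ h1
    · have h3 := hrel (!d')
      rw [Bool.not_not] at h3
      rw [map_mul, h2, ← h3, map_mul]
      have h4 := hlam d'
      calc lam (!d) * ι x * lam d' * (lam (!d') * ι (g d') * lam (s d'))
          = lam (!d) * ι x * (lam d' * lam (!d')) * ι (g d') * lam (s d') := by
            simp only [mul_assoc]
        _ = lam (!d) * (ι x * ι (g d')) * lam (s d') := by
            rw [h4, mul_one]; simp only [mul_assoc]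

/-- The data of a strip: `α d`, `β d` are the positions at the end of a stub on the side `d`, seen
in the two cells of the strip which meet in the stub. -/
structure StripData (R : ℕ → H → ℕ → Prop) (g : Bool → H) (s : Bool → Bool)
    (α β : Bool → ℕ) : Prop where
  refl : ∀ p, R p 1 p
  comp : ∀ {p q r a b}, R p a q → R q b r → R p (a * b) r
  arc : ∀ d, R (β d) (g d) (α (s d))
  arcInv : ∀ d, R (α (s d)) (g d)⁻¹ (β d)
  ss : ∀ d, s (s d) = d
  sn : ∀ d, s (!d) = !(s d)
  flip : ∀ (π π' : Bool) (d : Bool), R (bif π then α d else β d) 1 (bif π' then α d else β d) →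
    R (bif π then α (!d) else β (!d)) 1 (bif π' then α (!d) else β (!d))

theorem StripData.rev {R : ℕ → H → ℕ → Prop} {g : Bool → H} {s : Bool → Bool}
    {α β : Bool → ℕ} (S : StripData R g s α β) :
    StripData R (fun d => (g (s d))⁻¹) s β α where
  refl := S.refl
  comp := S.comp
  arc := fun d => by simpa [S.ss] using S.arcInv (s d)
  arcInv := fun d => by simpa [S.ss] using S.arc (s d)
  ss := S.ss
  sn := S.sn
  flip := by
    intro π π' d h
    have := S.flip (!π) (!π') d
    revert this h
    cases π <;> cases π' <;> exact fun h1 h2 => h2 h1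

/-- walking forwards along a strip whose cells dominate the next ones -/
theorem StripData.walk {R : ℕ → H → ℕ → Prop} {g : Bool → H} {s : Bool → Bool}
    {α β : Bool → ℕ} (S : StripData R g s α β) (hαβ : ∀ d, R (α d) 1 (β d))
    {j : ℕ} {d d' : Bool} {x : H} (h : PosP g s (j + 1) d x d') : R (β d) x (α d') := by
  induction j generalizing x d' with
  | zero =>
    cases h with
    | succ h =>
      cases h with
      | zero => rw [one_mul]; exact S.arc d
  | succ j ih =>
    cases h with
    | @succ _ _ d₁ x₁ h =>
      have h1 := S.comp (ih h) (S.comp (hαβ d₁) (S.arc d₁))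
      rwa [one_mul] at h1

/-- the reroute lemma when the cells dominate the next ones -/
theorem StripData.reroute {R : ℕ → H → ℕ → Prop} {g : Bool → H} {s : Bool → Bool}
    {α β : Bool → ℕ} (S : StripData R g s α β) (hαβ : ∀ d, R (α d) 1 (β d))
    {j : ℕ} {d d' : Bool} {b b' : H} (π π' : Bool)
    (h : (PosP g s j d b d' ∧ PosP g s j (!d) b' (!d')) ∨
      (PosP g s j d' b⁻¹ d ∧ PosP g s j (!d') b'⁻¹ (!d)))
    (hR : R (bif π then α d else β d) b (bif π' then α d' else β d')) :
    R (bif π then α (!d) else β (!d)) b' (bif π' then α (!d') else β (!d')) := by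
  -- jumps forced by the hypothesis
  have toβ : ∀ (π : Bool) (e : Bool), R (bif π then α e else β e) 1 (β e) := by
    intro π e
    cases π
    · exact S.refl _
    · exact hαβ e
  have fromα : ∀ (π : Bool) (e : Bool), R (α e) 1 (bif π then α e else β e) := by
    intro π e
    cases π
    · exact hαβ e
    · exact S.refl _
  cases j with
  | zero =>
    have h1 : d = d' ∧ b = 1 ∧ b' = 1 := by
      rcases h with ⟨h1, h2⟩ | ⟨h1, h2⟩
      · refine ⟨?_, ?_, ?_⟩
        · cases h1; rfl
        · cases h1; rfl
        · generalize hd : (!d) = e at h2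
          generalize hd' : (!d') = e' at h2
          cases h2; rfl
      · generalize hc : b⁻¹ = c at h1
        refine ⟨?_, ?_, ?_⟩
        · cases h1; rfl
        · cases h1; rwa [inv_eq_one] at hc
        · generalize hd : (!d) = e at h2
          generalize hd' : (!d') = e' at h2
          generalize hc' : b'⁻¹ = c' at h2
          cases h2; rwa [inv_eq_one] at hc'
    obtain ⟨rfl, rfl, rfl⟩ := h1
    exact S.flip π π' d hR
  | succ j =>
    rcases h with ⟨h1, h2⟩ | ⟨h1, h2⟩
    · have h3 := S.comp (toβ π (!d)) (S.comp (S.walk hαβ h2) (fromα π' (!d')))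
      rwa [one_mul, mul_one] at h3
    · -- the walk goes backwards
      have h3 := S.walk hαβ h1
      have hcase : (π = true ∧ π' = false ∧ j = 0) ∨ ∃ e, R (β e) 1 (α e) := by
        cases π with
        | false =>
          right
          refine ⟨d, ?_⟩
          have h4 := S.comp hR (S.comp (toβ π' d') h3)
          rwa [one_mul, mul_inv_cancel] at h4
        | true =>
          cases π' with
          | true =>
            right
            refine ⟨d', ?_⟩
            have h4 := S.comp h3 hR
            rwa [inv_mul_cancel] at h4
          | false =>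
            cases j with
            | zero => exact Or.inl ⟨rfl, rfl, rfl⟩
            | succ j =>
              right
              obtain ⟨y, h5, h6⟩ := h1.front
              refine ⟨s d', ?_⟩
              have h7 := S.comp (S.walk hαβ h6) (S.comp hR (S.arc d'))
              have h8 : y * (b * g d') = 1 := by
                have h9 : b = y⁻¹ * (g d')⁻¹ := by rw [← mul_inv_rev, ← h5, inv_inv]
                rw [h9]
                group
              rwa [h8] at h7
      rcases hcase with ⟨rfl, rfl, rfl⟩ | ⟨e, he⟩
      · -- the same line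
        obtain ⟨y, h5, h6⟩ := h2.front
        generalize hd : (!d) = e at h6 h2 ⊢
        cases h6
        have h7 := S.arcInv (!d')
        rw [mul_one] at h5
        rw [← h5, inv_inv] at h7
        exact h7
      · have hβα : ∀ d, R (β d) 1 (α d) := by
          intro d
          rcases Bool.eq_or_eq_not d e with rfl | rfl
          · exact he
          · exact S.flip false true e he
        have h4 := h2.rev S.ss
        rw [inv_inv] at h4
        have h5 := S.rev.walk hβα h4
        have h6 : R (bif π then α (!d) else β (!d)) 1 (α (!d)) := by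
          cases π
          · exact hβα _
          · exact S.refl _
        have h7 : R (β (!d')) 1 (bif π' then α (!d') else β (!d')) := by
          cases π'
          · exact S.refl _
          · exact hβα _
        have h8 := S.comp h6 (S.comp h5 h7)
        rwa [one_mul, mul_one] at h8

end Two26
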