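import Pool.Agent.LibTwo26.Walk

/-!
# Paths in the Cayley tree of a free group
-/

namespace Two26

open MM31

variable {X : Type}

theorem prefix_append_cases {K L M : List (Lt X)} (h : K <+: L ++ M) :
    K <+: L ∨ ∃ N, K = L ++ N ∧ N <+: M := by
  rcases List.prefix_or_prefix_of_prefix h (List.prefix_append L M) with h1 | h1
  · exact Or.inl h1
  · obtain ⟨N, rfl⟩ := h1
    exact Or.inr ⟨N, rfl, (List.prefix_append_right_inj L).1 h⟩

/-- `a` and `b` are joined by a path of the Cayley tree all of whose vertices lie in `S`. -/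
def Conn (S : Set (FreeGroup X)) (a b : FreeGroup X) : Prop :=
  ∃ L : List (Lt X), a * FreeGroup.mk L = b ∧ ∀ L₁, L₁ <+: L → a * FreeGroup.mk L₁ ∈ S

theorem Conn.refl {S : Set (FreeGroup X)} {a : FreeGroup X} (h : a ∈ S) : Conn S a a := by
  refine ⟨[], by rw [← FreeGroup.one_eq_mk, mul_one], ?_⟩
  intro L₁ h1
  rw [List.prefix_nil] at h1
  rw [h1, ← FreeGroup.one_eq_mk, mul_one]
  exact h

theorem Conn.trans {S : Set (FreeGroup X)} {a b c : FreeGroup X} (h1 : Conn S a b)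
    (h2 : Conn S b c) : Conn S a c := by
  obtain ⟨L, h3, h4⟩ := h1
  obtain ⟨M, h5, h6⟩ := h2
  refine ⟨L ++ M, ?_, ?_⟩
  · rw [← FreeGroup.mul_mk, ← mul_assoc, h3, h5]
  · intro K hK
    rcases prefix_append_cases hK with hK | ⟨N, rfl, hN⟩
    · exact h4 K hK
    · rw [← FreeGroup.mul_mk, ← mul_assoc, h3]
      exact h6 N hN

theorem Conn.symm {S : Set (FreeGroup X)} {a b : FreeGroup X} (h : Conn S a b) : Conn S b a := by
  obtain ⟨L, h3, h4⟩ := h
  have key : ∀ L : List (Lt X), FreeGroup.mk (FreeGroup.invRev L) = (FreeGroup.mk L)⁻¹ :=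
    fun L => FreeGroup.inv_mk.symm
  refine ⟨FreeGroup.invRev L, by rw [key, ← h3, mul_inv_cancel_right], ?_⟩
  rintro K ⟨N, hN⟩
  have h5 : L = FreeGroup.invRev N ++ FreeGroup.invRev K := by
    rw [← FreeGroup.invRev_append, hN, FreeGroup.invRev_invRev]
  have h6 := h4 (FreeGroup.invRev N) ⟨_, h5.symm⟩
  have h7 : b * FreeGroup.mk K = a * FreeGroup.mk (FreeGroup.invRev N) := by
    rw [← h3, h5, ← FreeGroup.mul_mk, key, key]
    group
  rw [h7]
  exact h6

theorem Conn.mono {S T : Set (FreeGroup X)} (hST : S ⊆ T) {a b : FreeGroup X}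
    (h : Conn S a b) : Conn T a b := by
  obtain ⟨L, h3, h4⟩ := h
  exact ⟨L, h3, fun K hK => hST (h4 K hK)⟩

theorem Conn.translate {S T : Set (FreeGroup X)} (c : FreeGroup X)
    (hST : ∀ x, x ∈ S → c * x ∈ T) {a b : FreeGroup X}
    (h : Conn S a b) : Conn T (c * a) (c * b) := by
  obtain ⟨L, h3, h4⟩ := h
  refine ⟨L, by rw [mul_assoc, h3], fun K hK => ?_⟩
  rw [mul_assoc]
  exact hST _ (h4 K hK)

/-- the vertices of the path obtained by cancelling are vertices of the path -/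
theorem step_prefix {L L' : List (Lt X)} (h : FreeGroup.Red.Step L L') {K' : List (Lt X)}
    (hK : K' <+: L') : ∃ K, K <+: L ∧ FreeGroup.mk K = FreeGroup.mk K' := by
  cases h with
  | @not L₁ L₂ x b =>
    rcases prefix_append_cases hK with hK | ⟨N, rfl, hN⟩
    · exact ⟨K', hK.trans (List.prefix_append _ _), rfl⟩
    · refine ⟨L₁ ++ (x, b) :: (x, !b) :: N, ?_, ?_⟩
      · rw [List.prefix_append_right_inj]
        exact (List.cons_prefix_cons.2 ⟨rfl, List.cons_prefix_cons.2 ⟨rfl, hN⟩⟩)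
      · exact Quot.sound FreeGroup.Red.Step.not

theorem red_prefix {L L' : List (Lt X)} (h : FreeGroup.Red L L') {K' : List (Lt X)}
    (hK : K' <+: L') : ∃ K, K <+: L ∧ FreeGroup.mk K = FreeGroup.mk K' := by
  induction h generalizing K' with
  | refl => exact ⟨K', hK, rfl⟩
  | tail _ h2 ih =>
    obtain ⟨K₁, h3, h4⟩ := step_prefix h2 hK
    obtain ⟨K₂, h5, h6⟩ := ih h3
    exact ⟨K₂, h5, h6.trans h4⟩

/-- A path which joins `a` to `a R` visits all vertices of the geodesic. -/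
theorem Conn.geodesic {S : Set (FreeGroup X)} {a b : FreeGroup X} (h : Conn S a b)
    {R₁ R₂ : List (Lt X)} (hR : FreeGroup.IsReduced (R₁ ++ R₂))
    (hb : b = a * FreeGroup.mk (R₁ ++ R₂)) : a * FreeGroup.mk R₁ ∈ S := by
  obtain ⟨L, h3, h4⟩ := h
  have h5 : FreeGroup.mk L = FreeGroup.mk (R₁ ++ R₂) := mul_left_cancel (h3.trans hb)
  have h6 : FreeGroup.Red L (R₁ ++ R₂) := by
    obtain ⟨c, h7, h8⟩ := FreeGroup.Red.exact.1 h5
    have h9 := hR.red_iff_eq.1 h8
    rwa [h9] at h7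
  obtain ⟨K, h7, h8⟩ := red_prefix h6 (List.prefix_append R₁ R₂)
  rw [← h8]
  exact h4 K h7

end Two26
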