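import Pool.Agent.LibMM31.PowFinal

/-!
# Walks that avoid a letter

`AL w z p L q`: from the position `p` of the cyclic word `w` one can reach the position `q` by
reading the list of letters `L`, none of them a `z` or `z⁻¹`, and by jumping from a position to
any position that it dominates.
-/

namespace Two26

open MM31

variable {X : Type}

theorem Mv.det {w : List (Lt X)} (hred : CycRed w) {i i₁ i₂ : ℕ} {x : Lt X} (h1 : Mv w i x i₁)
    (h2 : Mv w i x i₂) : i₁ = i₂ := by
  have key : ∀ j k : ℕ, k < w.length → w[k]? = some x → j < w.length →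
      w[j]? = some (linv x) → k = (j + 1) % w.length → False := by
    intro j k hk h3 hj h4 h5
    have hN : 0 < w.length := by omega
    have h6 : wf w x k = x := by simp [wf, h3]
    have h7 : wf w x j = linv x := by simp [wf, h4]
    rcases Nat.lt_or_ge (j + 1) w.length with h | h
    · rw [Nat.mod_eq_of_lt h] at h5
      subst h5
      have h8 := hred.wf_succ x j h
      rw [h6, h7, linv_linv] at h8
      exact h8 rfl
    · have h9 : j + 1 = w.length := by omega
      rw [h9, Nat.mod_self] at h5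
      subst h5
      have h8 := hred.wf_last x hN
      have h10 : w.length - 1 = j := by omega
      rw [h10, h6, h7] at h8
      exact h8 rfl
  rcases h1 with ⟨h3, h4, h5⟩ | ⟨h3, h4, h5⟩
  · rcases h2 with ⟨h6, h7, h8⟩ | ⟨h6, h7, h8⟩
    · rw [h5, h8]
    · exact (key _ _ h3 h4 h6 h7 h8).elim
  · rcases h2 with ⟨h6, h7, h8⟩ | ⟨h6, h7, h8⟩
    · exact (key _ _ h6 h7 h3 h4 h5).elim
    · rw [h5] at h8
      have h9 : (i₁ + 1) ≡ (i₂ + 1) [MOD w.length] := h8
      have h10 := Nat.ModEq.add_right_cancel' 1 h9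
      exact Nat.ModEq.eq_of_lt_of_lt h10 h3 h6

theorem Mv.det' {w : List (Lt X)} (hred : CycRed w) {i₁ i₂ i : ℕ} {x : Lt X} (h1 : Mv w i₁ x i)
    (h2 : Mv w i₂ x i) : i₁ = i₂ :=
  Mv.det hred h1.symm h2.symm

/-- walks which avoid `z`, with the list of letters read -/
inductive AL (w : List (Lt X)) (z : X) : ℕ → List (Lt X) → ℕ → Prop
  | nil {p q : ℕ} : Dom w p q → AL w z p [] q
  | cons {p p' q' q : ℕ} {x : Lt X} {L : List (Lt X)} : Dom w p p' → Mv w p' x q' → x.1 ≠ z →
      AL w z q' L q → AL w z p (x :: L) q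

theorem AL.dom_left {w : List (Lt X)} {z : X} {p p' q : ℕ} {L : List (Lt X)} (h : Dom w p p')
    (h1 : AL w z p' L q) : AL w z p L q := by
  cases h1 with
  | nil h2 => exact AL.nil (Dom.trans _ _ _ h h2)
  | cons h2 h3 h4 h5 => exact AL.cons (Dom.trans _ _ _ h h2) h3 h4 h5

theorem AL.append {w : List (Lt X)} {z : X} {p q r : ℕ} {L M : List (Lt X)}
    (h1 : AL w z p L q) (h2 : AL w z q M r) : AL w z p (L ++ M) r := by
  induction h1 with
  | nil h => exact h2.dom_left h
  | cons h h3 h4 _ ih => exact AL.cons h h3 h4 (ih h2)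

theorem AL.split {w : List (Lt X)} {z : X} {p r : ℕ} {L M : List (Lt X)}
    (h : AL w z p (L ++ M) r) : ∃ q, AL w z p L q ∧ AL w z q M r := by
  induction L generalizing p with
  | nil => exact ⟨p, AL.nil (Dom.refl _), h⟩
  | cons x L ih =>
    cases h with
    | cons h1 h2 h3 h4 =>
      obtain ⟨q, h5, h6⟩ := ih h4
      exact ⟨q, AL.cons h1 h2 h3 h5, h6⟩

theorem AL.step {w : List (Lt X)} {z : X} {p q : ℕ} {L L' : List (Lt X)}
    (h : AL w z p L q) (hs : FreeGroup.Red.Step L L') : AL w z p L' q := by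
  cases hs with
  | @not L₁ L₂ x b =>
    obtain ⟨r, h1, h2⟩ := h.split
    cases h2 with
    | cons h3 h4 h5 h6 =>
      cases h6 with
      | cons h7 h8 h9 h10 =>
        refine h1.append (h10.dom_left (Dom.trans _ _ _ h3 ?_))
        have h11 := Mv.symm h8
        have h12 : linv (x, !b) = (x, b) := by simp [linv]
        rw [h12] at h11
        exact Dom.letter _ _ _ _ _ h4 h11 h7

theorem AL.red {w : List (Lt X)} {z : X} {p q : ℕ} {L L' : List (Lt X)}
    (h : AL w z p L q) (hs : FreeGroup.Red L L') : AL w z p L' q := by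
  induction hs with
  | refl => exact h
  | tail _ h2 ih => exact ih.step h2

theorem AL.dom {w : List (Lt X)} {z : X} {p q : ℕ} (h : AL w z p [] q) : Dom w p q := by
  cases h with
  | nil h => exact h

theorem AL.dom_of_mk {w : List (Lt X)} {z : X} {p q : ℕ} {L : List (Lt X)}
    (h : AL w z p L q) (h1 : FreeGroup.mk L = 1) : Dom w p q := by
  classical
  have h2 : FreeGroup.Red L [] := by
    obtain ⟨c, h3, h4⟩ := FreeGroup.Red.exact.1 (h1.trans FreeGroup.one_eq_mk)
    rw [FreeGroup.Red.nil_iff] at h4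
    rwa [h4] at h3
  exact (h.red h2).dom

/-- walks which avoid `z`, with the element of the free group read -/
def AW (w : List (Lt X)) (z : X) (p : ℕ) (a : FreeGroup X) (q : ℕ) : Prop :=
  ∃ L, AL w z p L q ∧ FreeGroup.mk L = a

theorem AW.of_dom {w : List (Lt X)} {z : X} {p q : ℕ} (h : Dom w p q) : AW w z p 1 q :=
  ⟨[], AL.nil h, rfl⟩

theorem AW.dom {w : List (Lt X)} {z : X} {p q : ℕ} (h : AW w z p 1 q) : Dom w p q := by
  obtain ⟨L, h1, h2⟩ := h
  exact h1.dom_of_mk h2

theorem AW.comp {w : List (Lt X)} {z : X} {p q r : ℕ} {a b : FreeGroup X}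
    (h1 : AW w z p a q) (h2 : AW w z q b r) : AW w z p (a * b) r := by
  obtain ⟨L, h3, rfl⟩ := h1
  obtain ⟨M, h4, rfl⟩ := h2
  exact ⟨L ++ M, h3.append h4, FreeGroup.mul_mk.symm⟩

theorem AW.step {w : List (Lt X)} {z : X} {p q : ℕ} {x : Lt X} (h : Mv w p x q)
    (hx : x.1 ≠ z) : AW w z p (FreeGroup.mk [x]) q :=
  ⟨[x], AL.cons (Dom.refl _) h hx (AL.nil (Dom.refl _)), rfl⟩

/-- the element of the free group read by the first `p` letters -/
def Fv (w : List (Lt X)) (p : ℕ) : FreeGroup X := FreeGroup.mk (w.take p)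

theorem AW.fwd {w : List (Lt X)} {z : X} {p q : ℕ} (hpq : p ≤ q) (hq : q ≤ w.length)
    (h : ∀ i x, p ≤ i → i < q → w[i]? = some x → x.1 ≠ z) :
    AW w z (p % w.length) ((Fv w p)⁻¹ * Fv w q) (q % w.length) := by
  induction q with
  | zero =>
    obtain rfl : p = 0 := by omega
    rw [inv_mul_cancel]
    exact AW.of_dom (Dom.refl _)
  | succ q ih =>
    rcases Nat.lt_or_ge p (q + 1) with h1 | h1
    · have h2 := ih (by omega) (by omega) (fun i x h3 h4 => h i x h3 (by omega))
      have h3 : q < w.length := by omega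
      have h4 : w[q]? = some w[q] := List.getElem?_eq_getElem h3
      have h5 : Mv w (q % w.length) w[q] ((q + 1) % w.length) := by
        rw [Nat.mod_eq_of_lt h3]
        exact Or.inl ⟨h3, h4, rfl⟩
      have h6 := h2.comp (AW.step h5 (h q _ (by omega) (by omega) h4))
      have h7 : Fv w (q + 1) = Fv w q * FreeGroup.mk [w[q]] := by
        unfold Fv
        rw [List.take_add_one, h4, FreeGroup.mul_mk]
        rfl
      rw [h7, ← mul_assoc]
      exact h6
    · obtain rfl : p = q + 1 := by omega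
      rw [inv_mul_cancel]
      exact AW.of_dom (Dom.refl _)

theorem AW.bwd {w : List (Lt X)} {z : X} {p q : ℕ} (hpq : p ≤ q) (hq : q ≤ w.length)
    (h : ∀ i x, p ≤ i → i < q → w[i]? = some x → x.1 ≠ z) :
    AW w z (q % w.length) ((Fv w q)⁻¹ * Fv w p) (p % w.length) := by
  induction q with
  | zero =>
    obtain rfl : p = 0 := by omega
    rw [inv_mul_cancel]
    exact AW.of_dom (Dom.refl _)
  | succ q ih =>
    rcases Nat.lt_or_ge p (q + 1) with h1 | h1
    · have h2 := ih (by omega) (by omega) (fun i x h3 h4 => h i x h3 (by omega))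
      have h3 : q < w.length := by omega
      have h4 : w[q]? = some w[q] := List.getElem?_eq_getElem h3
      have h5 : Mv w (q % w.length) w[q] ((q + 1) % w.length) := by
        rw [Nat.mod_eq_of_lt h3]
        exact Or.inl ⟨h3, h4, rfl⟩
      have h8 : (linv w[q]).1 ≠ z := by
        have h10 := h q _ (by omega) (by omega) h4
        exact h10
      have h6 := (AW.step h5.symm h8).comp h2
      have h7 : Fv w (q + 1) = Fv w q * FreeGroup.mk [w[q]] := by
        unfold Fv
        rw [List.take_add_one, h4, FreeGroup.mul_mk]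
        rfl
      have h9 : (FreeGroup.mk [w[q]] : FreeGroup X)⁻¹ = FreeGroup.mk [linv w[q]] := by
        rw [FreeGroup.inv_mk]
        rfl
      rw [h7, mul_inv_rev, h9, mul_assoc]
      exact h6
    · obtain rfl : p = q + 1 := by omega
      rw [inv_mul_cancel]
      exact AW.of_dom (Dom.refl _)

end Two26
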